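import Pool.Agent.Helper34.SS.Defs

/-!
# Semisplaying: basic lemmas
-/

set_option autoImplicit false

namespace Pool.Agent.SS

namespace BT

theorem Rot.symm {t t' : BT} (h : Rot t t') : Rot t' t := by
  induction h with
  | right a x b y c => exact Rot.left a x b y c
  | left a x b y c => exact Rot.right a x b y c
  | inl k r _ ih => exact Rot.inl k r ih
  | inr l k _ ih => exact Rot.inr l k ih

theorem Rot.keys {t t' : BT} (h : Rot t t') : t'.keys = t.keys := by
  induction h with
  | right a x b y c => simp [BT.keys]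
  | left a x b y c => simp [BT.keys]
  | inl k r _ ih => simp [BT.keys, ih]
  | inr l k _ ih => simp [BT.keys, ih]

/-- `n` rotations. -/
inductive RotN : ℕ → BT → BT → Prop
  | refl (t : BT) : RotN 0 t t
  | step {n : ℕ} {t t' t'' : BT} : Rot t t' → RotN n t' t'' → RotN (n + 1) t t''

theorem RotN.one {t t' : BT} (h : Rot t t') : RotN 1 t t' := RotN.step h (RotN.refl _)

theorem RotN.trans {n m : ℕ} {t t' t'' : BT} (h : RotN n t t') (h' : RotN m t' t'') : RotN (n + m) t t'' := by
  induction h with
  | refl t => simpa using h'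
  | @step n _ _ _ h1 _ ih =>
    have := RotN.step h1 (ih h')
    rwa [show n + 1 + m = n + m + 1 from by omega]

theorem RotN.keys {n : ℕ} {t t' : BT} (h : RotN n t t') : t'.keys = t.keys := by
  induction h with
  | refl t => rfl
  | step h1 _ ih => rw [ih, h1.keys]

/-- replace the current subtree in the tree -/
def plug : List Step → BT → BT
  | [], t => t
  | ⟨true, k, s⟩ :: p, t => plug p (node t k s)
  | ⟨false, k, s⟩ :: p, t => plug p (node s k t)

theorem Rot.plug {t t' : BT} (h : Rot t t') (p : List Step) : Rot (BT.plug p t) (BT.plug p t') := by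
  induction p generalizing t t' with
  | nil => exact h
  | cons s p ih =>
    obtain ⟨d, k, o⟩ := s
    cases d
    · exact ih (Rot.inr o k h)
    · exact ih (Rot.inl k o h)

theorem plug_path (x : ℕ) (t : BT) (p : List Step) : plug (path x t p).1 (path x t p).2 = plug p t := by
  induction t generalizing p with
  | nil => rfl
  | node l k r ihl ihr =>
    unfold path
    split_ifs with h1 h2
    · rw [ihl]; rfl
    · rw [ihr]; rfl
    · rfl

theorem length_path (x : ℕ) (t : BT) (p : List Step) : (path x t p).1.length = p.length + depth x t := by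
  induction t generalizing p with
  | nil => simp [path, depth]
  | node l k r ihl ihr =>
    unfold path depth
    split_ifs with h1 h2
    · rw [ihl, List.length_cons]; omega
    · rw [ihr, List.length_cons]; omega
    · simp

/-- strictly increasing keys -/
def Srt (t : BT) : Prop := t.keys.Pairwise (· < ·)

theorem srt_node {l r : BT} {k : ℕ} : Srt (node l k r) ↔
    Srt l ∧ Srt r ∧ (∀ x ∈ l.keys, x < k) ∧ ∀ x ∈ r.keys, k < x := by
  unfold Srt
  simp only [BT.keys, List.pairwise_append, List.pairwise_cons, List.mem_cons]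
  constructor
  · rintro ⟨h1, ⟨h2, h3⟩, h4⟩
    exact ⟨h1, h3, fun x hx => h4 x hx k (Or.inl rfl), h2⟩
  · rintro ⟨h1, h2, h3, h4⟩
    refine ⟨h1, ⟨h4, h2⟩, fun a ha b hb => ?_⟩
    rcases hb with rfl | hb
    · exact h3 a ha
    · exact (h3 a ha).trans (h4 b hb)

theorem mem_node {l r : BT} {k x : ℕ} : x ∈ (node l k r).keys ↔ x ∈ l.keys ∨ x = k ∨ x ∈ r.keys := by
  simp [BT.keys]

theorem path_node {x : ℕ} {t : BT} (ht : Srt t) (hx : x ∈ t.keys) (p : List Step) :
    ∃ a b, (path x t p).2 = node a x b := by
  induction t generalizing p with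
  | nil => simp [BT.keys] at hx
  | node l k r ihl ihr =>
    obtain ⟨h1, h2, h3, h4⟩ := srt_node.1 ht
    rw [mem_node] at hx
    unfold path
    split_ifs with h5 h6
    · refine ihl h1 ?_ _
      rcases hx with h | h | h
      · exact h
      · omega
      · have := h4 x h; omega
    · refine ihr h2 ?_ _
      rcases hx with h | h | h
      · have := h3 x h; omega
      · omega
      · exact h
    · exact ⟨l, r, by rw [show x = k from by omega]⟩

theorem semi_rotN (p : List Step) (t : BT) (ht : t ≠ nil) : RotN (semi p t).2 (plug p t) (semi p t).1 := by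
  induction p, t using semi.induct with
  | case1 t => exact RotN.refl _
  | case2 t k s => exact RotN.refl _
  | case3 t k s => exact RotN.refl _
  | case4 p a g b up t ih =>
    refine RotN.step ?_ (ih (by simp))
    exact Rot.plug (Rot.right t p a g b) up
  | case5 p a g b up t ih =>
    refine RotN.step ?_ (ih (by simp))
    exact Rot.plug (Rot.left b g a p t) up
  | case6 p a g b up => exact absurd rfl ht
  | case7 p a g b up u c v ih =>
    have h := ih (by simp)
    refine RotN.step (t' := plug up (node (node (node a p u) c v) g b)) ?_ (RotN.step ?_ h)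
    · exact Rot.plug (Rot.inl g b (Rot.left a p u c v)) up
    · exact Rot.plug (Rot.right (node a p u) c v g b) up
  | case8 p a g b up => exact absurd rfl ht
  | case9 p a g b up u c v ih =>
    have h := ih (by simp)
    refine RotN.step (t' := plug up (node b g (node u c (node v p a)))) ?_ (RotN.step ?_ h)
    · exact Rot.plug (Rot.inr b g (Rot.right u c v p a)) up
    · exact Rot.plug (Rot.left b g u c (node v p a)) up

theorem splayed_rotN {x : ℕ} {t : BT} (ht : Srt t) (hx : x ∈ t.keys) :
    RotN (semi (path x t []).1 (path x t []).2).2 t (splayed x t) := by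
  obtain ⟨a, b, h⟩ := path_node ht hx []
  have h1 := semi_rotN (path x t []).1 (path x t []).2 (by rw [h]; simp)
  rw [plug_path] at h1
  exact h1

theorem keys_splayed {x : ℕ} {t : BT} (ht : Srt t) (hx : x ∈ t.keys) : (splayed x t).keys = t.keys :=
  (splayed_rotN ht hx).keys

theorem srt_splayed {x : ℕ} {t : BT} (ht : Srt t) (hx : x ∈ t.keys) : Srt (splayed x t) := by
  unfold Srt
  rw [keys_splayed ht hx]
  exact ht

theorem RotN.run {n : ℕ} {t t' : BT} (h : RotN n t t') {σ : List ℕ} {c : ℕ} (h' : Run t' σ c) :
    Run t σ (c + n) := by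
  induction h with
  | refl t => exact h'
  | step h1 _ ih => exact Run.rot h1 (ih h')

theorem run_semi {σ : List ℕ} {t : BT} (ht : Srt t) (hσ : ∀ x ∈ σ, x ∈ t.keys) : Run t σ (semiCost t σ) := by
  induction σ generalizing t with
  | nil => exact Run.done t
  | cons x σ ih =>
    have hx := hσ x (by simp)
    have h1 := ih (srt_splayed ht hx) (fun y hy => by
      rw [keys_splayed ht hx]; exact hσ y (List.mem_cons_of_mem _ hy))
    have h2 := Run.access (x := x) ((splayed_rotN ht hx).run h1)
    have h3 : semiCost t (x :: σ) = semiCost (splayed x t) σ +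
        (semi (path x t []).1 (path x t []).2).2 + (1 + depth x t) := by
      show accessCost x t + semiCost (splayed x t) σ = _
      unfold accessCost
      omega
    rw [h3]
    exact h2

theorem Run.sublist {t : BT} {τ : List ℕ} {c : ℕ} (h : Run t τ c) : ∀ {σ : List ℕ}, σ.Sublist τ →
    ∃ c' ≤ c, Run t σ c' := by
  induction h with
  | done t =>
    intro σ hσ
    rw [List.sublist_nil.1 hσ]
    exact ⟨0, le_refl _, Run.done t⟩
  | rot h1 _ ih =>
    intro σ hσ
    obtain ⟨c', hc, hr⟩ := ih hσ
    exact ⟨c' + 1, by omega, Run.rot h1 hr⟩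
  | @access t x τ c _ ih =>
    intro σ hσ
    cases hσ with
    | cons _ h =>
      obtain ⟨c', hc, hr⟩ := ih h
      exact ⟨c', by omega, hr⟩
    | cons_cons _ h =>
      obtain ⟨c', hc, hr⟩ := ih h
      exact ⟨c' + (1 + depth x t), by omega, Run.access hr⟩

theorem opt_run {t : BT} (ht : Srt t) {σ : List ℕ} (hσ : ∀ x ∈ σ, x ∈ t.keys) : Run t σ (opt t σ) :=
  Nat.sInf_mem (s := {c | Run t σ c}) ⟨_, run_semi ht hσ⟩

theorem opt_le {t : BT} {σ : List ℕ} {c : ℕ} (h : Run t σ c) : opt t σ ≤ c := Nat.sInf_le h

theorem opt_le_semiCost {t : BT} (ht : Srt t) {σ τ : List ℕ} (hτ : ∀ x ∈ τ, x ∈ t.keys)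
    (hs : σ.Sublist τ) : opt t σ ≤ semiCost t τ := by
  obtain ⟨c', hc, hr⟩ := (run_semi ht hτ).sublist hs
  exact (opt_le hr).trans hc

theorem Near.sublist {t : BT} {σ τ : List ℕ} (h : Near t σ τ) : σ.Sublist τ := by
  induction h with
  | done t => exact List.Sublist.refl _
  | keep _ _ ih => exact ih.cons_cons _
  | ins _ _ ih => exact ih.cons _

end BT

end Pool.Agent.SS
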