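import Mathlib

/-!
# Semisplaying: definitions (MP_fec8f2_lc)
-/

set_option autoImplicit false

namespace Pool.Agent.SS

/-- Binary trees with natural numbers as keys. -/
inductive BT where
  | nil : BT
  | node (l : BT) (k : ℕ) (r : BT) : BT

namespace BT

/-- The keys in symmetric order. -/
def keys : BT → List ℕ
  | nil => []
  | node l k r => keys l ++ k :: keys r

/-- Number of edges from the root to `x` (search in symmetric order). -/
def depth (x : ℕ) : BT → ℕ
  | nil => 0
  | node l k r => if x < k then depth x l + 1 else if k < x then depth x r + 1 else 0

/-- One rotation, anywhere in the tree. -/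
inductive Rot : BT → BT → Prop
  | right (a : BT) (x : ℕ) (b : BT) (y : ℕ) (c : BT) : Rot (node (node a x b) y c) (node a x (node b y c))
  | left (a : BT) (x : ℕ) (b : BT) (y : ℕ) (c : BT) : Rot (node a x (node b y c)) (node (node a x b) y c)
  | inl {l l' : BT} (k : ℕ) (r : BT) : Rot l l' → Rot (node l k r) (node l' k r)
  | inr {r r' : BT} (l : BT) (k : ℕ) : Rot r r' → Rot (node l k r) (node l k r')

/-- `Run t σ c`: some offline execution starting with the tree `t` serves `σ` at total cost `c`
(an access to `x` costs `1 + depth`, a rotation costs `1`). -/
inductive Run : BT → List ℕ → ℕ → Prop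
  | done (t : BT) : Run t [] 0
  | rot {t t' : BT} {σ : List ℕ} {c : ℕ} : Rot t t' → Run t' σ c → Run t σ (c + 1)
  | access {t : BT} {x : ℕ} {σ : List ℕ} {c : ℕ} : Run t σ c → Run t (x :: σ) (c + (1 + depth x t))

/-- The offline optimum. -/
noncomputable def opt (t : BT) (σ : List ℕ) : ℕ := sInf {c | Run t σ c}

/-- A step of the access path: `left` tells whether the path goes to the left child of the node with key
`key`; `oth` is the other subtree of this node. -/
structure Step where
  left : Bool
  key : ℕ
  oth : BT

/-- The path from `x` up to the root (first entry = parent of `x`) and the subtree with root `x`. -/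
def path (x : ℕ) : BT → List Step → List Step × BT
  | nil, p => (p, nil)
  | node l k r, p =>
    if x < k then path x l (⟨true, k, r⟩ :: p)
    else if k < x then path x r (⟨false, k, l⟩ :: p)
    else (p, node l k r)

/-- The semisplay restructuring: `t` is the subtree of the current node, the list is the path from the
current node up to the root. Value: the new tree and the number of rotations. -/
def semi : List Step → BT → BT × ℕ
  | [], t => (t, 0)
  | [⟨true, k, s⟩], t => (node t k s, 0)
  | [⟨false, k, s⟩], t => (node s k t, 0)
  | ⟨true, p, a⟩ :: ⟨true, g, b⟩ :: up, t =>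
      ((semi up (node t p (node a g b))).1, (semi up (node t p (node a g b))).2 + 1)
  | ⟨false, p, a⟩ :: ⟨false, g, b⟩ :: up, t =>
      ((semi up (node (node b g a) p t)).1, (semi up (node (node b g a) p t)).2 + 1)
  | ⟨false, p, a⟩ :: ⟨true, g, b⟩ :: up, t =>
      match t with
      | nil => (nil, 0)
      | node u c v =>
        ((semi up (node (node a p u) c (node v g b))).1, (semi up (node (node a p u) c (node v g b))).2 + 2)
  | ⟨true, p, a⟩ :: ⟨false, g, b⟩ :: up, t =>
      match t with
      | nil => (nil, 0)
      | node u c v =>
        ((semi up (node (node b g u) c (node v p a))).1, (semi up (node (node b g u) c (node v p a))).2 + 2)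

/-- The tree after semisplaying at `x`. -/
def splayed (x : ℕ) (t : BT) : BT := (semi (path x t []).1 (path x t []).2).1

/-- The cost of an access to `x` by semisplaying: `1 + depth` plus the number of rotations. -/
def accessCost (x : ℕ) (t : BT) : ℕ := 1 + depth x t + (semi (path x t []).1 (path x t []).2).2

/-- Total cost of semisplaying. -/
def semiCost : BT → List ℕ → ℕ
  | _, [] => 0
  | t, x :: σ => accessCost x t + semiCost (splayed x t) σ

/-- `Near t σ τ`: `τ` arises from `σ` by inserting accesses so that, when semisplaying serves `τ` from the
tree `t`, every access of `σ` finds its item at depth at most 1 and every inserted one at depth at most 3. -/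
inductive Near : BT → List ℕ → List ℕ → Prop
  | done (t : BT) : Near t [] []
  | keep {t : BT} {x : ℕ} {σ τ : List ℕ} : depth x t ≤ 1 → Near (splayed x t) σ τ → Near t (x :: σ) (x :: τ)
  | ins {t : BT} {y : ℕ} {σ τ : List ℕ} : depth y t ≤ 3 → Near (splayed y t) σ τ → Near t σ (y :: τ)

end BT

end Pool.Agent.SS
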