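import Pool.Agent.Helper34.SS.Basic

/-!
# Semisplaying: top patterns and the deferral of rotations

`fill f lo N`: the tree with top part `N`; the hole of `N` after the key `j` (`lo` for the leftmost hole)
is filled with `f j`.
-/

set_option autoImplicit false

namespace Pool.Agent.SS

namespace BT

def fill (f : ℕ → BT) : ℕ → BT → BT
  | lo, nil => f lo
  | lo, node l k r => node (fill f lo l) k (fill f k r)

def ext (j y : ℕ) : ℕ → BT → BT
  | lo, nil => if lo = j then node nil y nil else nil
  | lo, node l k r => node (ext j y lo l) k (ext j y k r)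

/-- the filling after the root `y` of the tree in the hole `j` is moved to the pattern -/
def spl (f : ℕ → BT) (j : ℕ) (a : BT) (y : ℕ) (b : BT) : ℕ → BT :=
  fun m => if m = y then b else if m = j then a else f m

theorem keys_fill (f : ℕ → BT) (lo : ℕ) (N : BT) :
    lo :: (fill f lo N).keys = (lo :: N.keys).flatMap (fun a => a :: (f a).keys) := by
  induction N generalizing lo with
  | nil => simp [fill, keys]
  | node l k r ihl ihr =>
    have h1 := ihl lo
    have h2 := ihr k
    simp only [fill, keys]
    rw [← List.cons_append, h1, h2, ← List.flatMap_append]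
    simp

theorem keys_ext (j y lo : ℕ) (N : BT) :
    lo :: (ext j y lo N).keys = (lo :: N.keys).flatMap (fun a => if a = j then [a, y] else [a]) := by
  induction N generalizing lo with
  | nil =>
    simp only [ext, keys, List.flatMap_cons, List.flatMap_nil, List.append_nil]
    split_ifs <;> simp [keys]
  | node l k r ihl ihr =>
    have h1 := ihl lo
    have h2 := ihr k
    simp only [ext, keys]
    rw [← List.cons_append, h1, h2, ← List.flatMap_append]
    simp

theorem fill_congr {f g : ℕ → BT} {lo : ℕ} {N : BT} (h : ∀ a ∈ lo :: N.keys, f a = g a) :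
    fill f lo N = fill g lo N := by
  induction N generalizing lo with
  | nil => exact h lo (by simp)
  | node l k r ihl ihr =>
    simp only [fill]
    rw [ihl (fun a ha => h a ?_), ihr (fun a ha => h a ?_)]
    · simp only [keys, List.mem_cons, List.mem_append] at ha ⊢; tauto
    · simp only [keys, List.mem_cons, List.mem_append] at ha ⊢; tauto

theorem ext_of_not_mem {j y lo : ℕ} {N : BT} (h : j ∉ lo :: N.keys) : ext j y lo N = N := by
  induction N generalizing lo with
  | nil =>
    have : lo ≠ j := fun h' => h (by simp [h'])
    simp [ext, this]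
  | node l k r ihl ihr =>
    simp only [ext]
    rw [ihl (fun ha => h ?_), ihr (fun ha => h ?_)]
    · simp only [keys, List.mem_cons, List.mem_append] at ha ⊢; tauto
    · simp only [keys, List.mem_cons, List.mem_append] at ha ⊢; tauto

theorem fill_ext {f : ℕ → BT} {j y lo : ℕ} {a b N : BT} (hj : f j = node a y b) (hy : y ∉ lo :: N.keys) :
    fill (spl f j a y b) lo (ext j y lo N) = fill f lo N := by
  induction N generalizing lo with
  | nil =>
    have h1 : lo ≠ y := fun h' => hy (by simp [h'])
    by_cases h : lo = j
    · subst h
      simp [ext, fill, spl, h1, hj]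
    · simp [ext, fill, spl, h1, h]
  | node l k r ihl ihr =>
    simp only [ext, fill]
    rw [ihl (fun ha => hy ?_), ihr (fun ha => hy ?_)]
    · simp only [keys, List.mem_cons, List.mem_append] at ha ⊢; tauto
    · simp only [keys, List.mem_cons, List.mem_append] at ha ⊢; tauto

theorem ext_fill (W : ℕ → BT) (j y lo : ℕ) (U : BT) :
    ext j y lo (fill W lo U) = fill (fun m => ext j y m (W m)) lo U := by
  induction U generalizing lo with
  | nil => rfl
  | node l k r ihl ihr => simp only [ext, fill, ihl, ihr]

/-- all keys different, also from `lo` -/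
def Dis (lo : ℕ) (t : BT) : Prop := (lo :: t.keys).Nodup

theorem Dis.of_fill {f : ℕ → BT} {lo : ℕ} {N : BT} (h : Dis lo (fill f lo N)) : Dis lo N := by
  unfold Dis at *
  rw [keys_fill] at h
  exact (List.nodup_flatMap.1 h).2.imp (fun {a b} hab => by
    rintro rfl
    exact hab (List.mem_cons_self) (List.mem_cons_self))

theorem Dis.not_mem {f : ℕ → BT} {lo : ℕ} {N : BT} (h : Dis lo (fill f lo N)) {j y : ℕ}
    (hj : j ∈ lo :: N.keys) (hy : y ∈ (f j).keys) : y ∉ lo :: N.keys := by
  intro hy'
  unfold Dis at h
  rw [keys_fill] at h
  obtain ⟨h1, h2⟩ := List.nodup_flatMap.1 h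
  by_cases hjy : j = y
  · subst hjy
    exact (List.nodup_cons.1 (h1 j hj)).1 hy
  · have inst : Std.Symm (Function.onFun List.Disjoint fun a => a :: (f a).keys) :=
      ⟨fun a b hab => List.Disjoint.symm hab⟩
    have h3 := h2.forall hj hy' hjy
    exact h3 (List.mem_cons_of_mem _ hy) (List.mem_cons_self)

theorem dis_node {lo k : ℕ} {l r : BT} (h : Dis lo (node l k r)) :
    Dis lo l ∧ Dis k r ∧ (∀ j ∈ lo :: l.keys, j ∉ k :: r.keys) := by
  unfold Dis at *
  simp only [keys] at h
  rw [← List.cons_append, List.nodup_append] at h
  exact ⟨h.1, h.2.1, fun j hj hj' => h.2.2 j hj j hj' rfl⟩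

theorem split {f : ℕ → BT} {lo : ℕ} {N T : BT} (hD : Dis lo (fill f lo N)) (h : Rot (fill f lo N) T) :
    (∃ N', Rot N N' ∧ T = fill f lo N') ∨
    (∃ j ∈ lo :: N.keys, ∃ M, Rot (f j) M ∧ T = fill (Function.update f j M) lo N) ∨
    (∃ j ∈ lo :: N.keys, ∃ a y b N', f j = node a y b ∧ Rot (ext j y lo N) N' ∧ T = fill (spl f j a y b) lo N') := by
  induction N generalizing lo T with
  | nil =>
    right; left
    exact ⟨lo, by simp, T, h, by simp [fill]⟩
  | node l k r ihl ihr =>
    have hD' := hD.of_fill
    obtain ⟨d1, d2, d3⟩ := dis_node hD'
    obtain ⟨e1, e2, e3⟩ := dis_node (show Dis lo (node (fill f lo l) k (fill f k r)) from hD)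
    have m1 : ∀ {j}, j ∈ lo :: l.keys → j ∈ lo :: (node l k r).keys := by
      intro j hj
      simp only [keys, List.mem_cons, List.mem_append] at hj ⊢; tauto
    have m2 : ∀ {j}, j ∈ k :: r.keys → j ∈ lo :: (node l k r).keys := by
      intro j hj
      simp only [keys, List.mem_cons, List.mem_append] at hj ⊢; tauto
    change Rot (node (fill f lo l) k (fill f k r)) T at h
    generalize hL : fill f lo l = L at h
    generalize hR : fill f k r = R at h
    cases h with
    | @inl _ L' _ _ h1 =>
      subst hL hR
      rcases ihl e1 h1 with ⟨N', h2, h3⟩ | ⟨j, hj, M, h2, h3⟩ | ⟨j, hj, a, y, b, N', h2, h3, h4⟩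
      · exact Or.inl ⟨node N' k r, Rot.inl k r h2, by rw [h3]; rfl⟩
      · refine Or.inr (Or.inl ⟨j, m1 hj, M, h2, ?_⟩)
        rw [h3]
        simp only [fill]
        rw [fill_congr (f := Function.update f j M) (g := f) (lo := k) (N := r)]
        intro c hc
        rw [Function.update_of_ne]
        rintro rfl
        exact d3 _ hj hc
      · refine Or.inr (Or.inr ⟨j, m1 hj, a, y, b, node N' k r, h2, ?_, ?_⟩)
        · simp only [ext]
          rw [ext_of_not_mem (d3 j hj)]
          exact Rot.inl k r h3
        · rw [h4]
          simp only [fill]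
          rw [fill_congr (f := spl f j a y b) (g := f) (lo := k) (N := r)]
          intro c hc
          unfold spl
          have hy : y ∉ lo :: (node l k r).keys := hD.not_mem (m1 hj) (by rw [h2]; simp [keys])
          rw [if_neg, if_neg]
          · rintro rfl
            exact d3 _ hj hc
          · rintro rfl
            exact hy (m2 hc)
    | @inr _ R' _ _ h1 =>
      subst hL hR
      rcases ihr e2 h1 with ⟨N', h2, h3⟩ | ⟨j, hj, M, h2, h3⟩ | ⟨j, hj, a, y, b, N', h2, h3, h4⟩
      · exact Or.inl ⟨node l k N', Rot.inr l k h2, by rw [h3]; rfl⟩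
      · refine Or.inr (Or.inl ⟨j, m2 hj, M, h2, ?_⟩)
        rw [h3]
        simp only [fill]
        rw [fill_congr (f := Function.update f j M) (g := f) (lo := lo) (N := l)]
        intro c hc
        rw [Function.update_of_ne]
        rintro rfl
        exact d3 _ hc hj
      · refine Or.inr (Or.inr ⟨j, m2 hj, a, y, b, node l k N', h2, ?_, ?_⟩)
        · simp only [ext]
          rw [ext_of_not_mem (fun hj' => d3 j hj' hj)]
          exact Rot.inr l k h3
        · rw [h4]
          simp only [fill]
          rw [fill_congr (f := spl f j a y b) (g := f) (lo := lo) (N := l)]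
          intro c hc
          unfold spl
          have hy : y ∉ lo :: (node l k r).keys := hD.not_mem (m2 hj) (by rw [h2]; simp [keys])
          rw [if_neg, if_neg]
          · rintro rfl
            exact d3 _ hc hj
          · rintro rfl
            exact hy (m1 hc)
    | right a x b _ _ =>
      subst hR
      cases l with
      | nil =>
        change f lo = node a x b at hL
        refine Or.inr (Or.inr ⟨lo, by simp, a, x, b, node nil x (node nil k r), hL, ?_, ?_⟩)
        · have hne : lo ∉ k :: r.keys := d3 lo (by simp)
          simp only [ext, if_true]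
          rw [ext_of_not_mem hne]
          exact Rot.right nil x nil k r
        · have hx : x ∉ lo :: (node nil k r).keys := hD.not_mem (j := lo) (by simp) (by rw [hL]; simp [keys])
          have hlx : lo ≠ x := by
            rintro rfl
            exact hx (by simp)
          simp only [fill]
          rw [fill_congr (f := spl f lo a x b) (g := f) (lo := k) (N := r)]
          · simp [spl, hlx]
          · intro c hc
            unfold spl
            rw [if_neg, if_neg]
            · rintro rfl
              exact d3 _ (by simp) hc
            · rintro rfl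
              exact hx (m2 hc)
      | node l1 x' l2 =>
        change node (fill f lo l1) x' (fill f x' l2) = node a x b at hL
        simp only [node.injEq] at hL
        obtain ⟨rfl, rfl, rfl⟩ := hL
        exact Or.inl ⟨node l1 x' (node l2 k r), Rot.right l1 x' l2 k r, rfl⟩
    | left _ _ b y c =>
      subst hL
      cases r with
      | nil =>
        change f k = node b y c at hR
        refine Or.inr (Or.inr ⟨k, m2 (by simp), b, y, c, node (node l k nil) y nil, hR, ?_, ?_⟩)
        · have hne : k ∉ lo :: l.keys := fun hk => d3 k hk (by simp)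
          simp only [ext, if_true]
          rw [ext_of_not_mem hne]
          exact Rot.left l k nil y nil
        · have hy : y ∉ lo :: (node l k nil).keys := hD.not_mem (j := k) (m2 (by simp)) (by rw [hR]; simp [keys])
          have hky : k ≠ y := by
            rintro rfl
            exact hy (m2 (by simp))
          simp only [fill]
          rw [fill_congr (f := spl f k b y c) (g := f) (lo := lo) (N := l)]
          · simp [spl, hky]
          · intro c hc
            unfold spl
            rw [if_neg, if_neg]
            · rintro rfl
              exact d3 _ hc (by simp)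
            · rintro rfl
              exact hy (m1 hc)
      | node r1 y' r2 =>
        change node (fill f k r1) y' (fill f y' r2) = node b y c at hR
        simp only [node.injEq] at hR
        obtain ⟨rfl, rfl, rfl⟩ := hR
        exact Or.inl ⟨node (node l k r1) y' r2, Rot.left l k r1 y' r2, rfl⟩

theorem rot_hole {f : ℕ → BT} {lo : ℕ} {N : BT} (hD : Dis lo N) {j : ℕ} (hj : j ∈ lo :: N.keys) {M : BT}
    (h : Rot M (f j)) : Rot (fill (Function.update f j M) lo N) (fill f lo N) := by
  induction N generalizing lo with
  | nil =>
    have : j = lo := by simpa [keys] using hj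
    subst this
    simpa [fill] using h
  | node l k r ihl ihr =>
    obtain ⟨d1, d2, d3⟩ := dis_node hD
    have hj' : j ∈ lo :: l.keys ∨ j ∈ k :: r.keys := by
      simp only [keys, List.mem_cons, List.mem_append] at hj ⊢; tauto
    simp only [fill]
    rcases hj' with hj' | hj'
    · rw [fill_congr (f := Function.update f j M) (g := f) (lo := k) (N := r)]
      · exact Rot.inl _ _ (ihl d1 hj')
      · intro c hc
        rw [Function.update_of_ne]
        rintro rfl
        exact d3 _ hj' hc
    · rw [fill_congr (f := Function.update f j M) (g := f) (lo := lo) (N := l)]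
      · exact Rot.inr _ _ (ihr d2 hj')
      · intro c hc
        rw [Function.update_of_ne]
        rintro rfl
        exact d3 _ hc hj'

theorem keys_ext_congr {j y lo : ℕ} {N V : BT} (h : V.keys = N.keys) :
    (ext j y lo V).keys = (ext j y lo N).keys := by
  have h1 := keys_ext j y lo N
  have h2 := keys_ext j y lo V
  rw [h, ← h1] at h2
  exact (List.cons.inj h2).2

theorem length_flatMap_le {j y : ℕ} {L : List ℕ} (h : L.Nodup) :
    (L.flatMap (fun a => if a = j then [a, y] else [a])).length ≤ L.length + 1 := by
  have key : ∀ L : List ℕ, j ∉ L → (L.flatMap (fun a => if a = j then [a, y] else [a])).length = L.length := by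
    intro L hL
    induction L with
    | nil => rfl
    | cons a L ih =>
      have h1 : a ≠ j := fun h' => hL (by simp [h'])
      have h2 : j ∉ L := fun h' => hL (List.mem_cons_of_mem _ h')
      simp only [List.flatMap_cons, List.length_append, ih h2, if_neg h1, List.length_cons, List.length_nil]
      omega
  induction L with
  | nil => simp
  | cons a L ih =>
    obtain ⟨h1, h2⟩ := List.nodup_cons.1 h
    simp only [List.flatMap_cons, List.length_append, List.length_cons]
    by_cases haj : a = j
    · subst haj
      rw [key L h1]
      simp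
      omega
    · have := ih h2
      rw [if_neg haj]
      simp only [List.length_cons, List.length_nil]
      omega

theorem length_ext_le {j y lo : ℕ} {N : BT} (h : Dis lo N) :
    (ext j y lo N).keys.length ≤ N.keys.length + 1 := by
  have h1 := congrArg List.length (keys_ext j y lo N)
  have h2 := length_flatMap_le (j := j) (y := y) h
  rw [← h1] at h2
  simpa using h2

/-- deferral of rotations -/
theorem defer {w : ℕ} {T S : BT} (h : RotN w T S) : ∀ {f : ℕ → BT} {lo : ℕ} {U : BT}, S = fill f lo U → Dis lo S →
    ∃ k m : ℕ, k + m = w ∧ ∃ (N V : BT) (g W : ℕ → BT), T = fill g lo N ∧ V = fill W lo U ∧ V.keys = N.keys ∧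
      N.keys.length ≤ U.keys.length + k ∧ RotN m (fill g lo V) S := by
  induction h with
  | refl t =>
    intro f lo U hS hD
    refine ⟨0, 0, rfl, U, U, f, fun _ => nil, hS, ?_, rfl, by omega, ?_⟩
    · have : ∀ lo' (U' : BT), U' = fill (fun _ => nil) lo' U' := by
        intro lo' U'
        induction U' generalizing lo' with
        | nil => rfl
        | node l k r ihl ihr => simp only [fill]; rw [← ihl, ← ihr]
      exact this lo U
    · rw [← hS]
      exact RotN.refl _
  | @step n t t' t'' h1 h2 ih =>
    intro f lo U hS hD
    obtain ⟨k, m, hkm, N, V, g, W, hT, hV, hVN, hlen, hR⟩ := ih hS hD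
    have hDt' : Dis lo t' := by
      unfold Dis at *
      rw [← h2.keys]
      exact hD
    have hDN : Dis lo N := (hT ▸ hDt').of_fill
    have hDV : Dis lo V := by
      unfold Dis at *
      rw [hVN]
      exact hDN
    have h3 := h1.symm
    rw [hT] at h3 hDt'
    rcases split hDt' h3 with ⟨N', h4, h5⟩ | ⟨j, hj, M, h4, h5⟩ | ⟨j, hj, a, y, b, N', h4, h5, h6⟩
    · refine ⟨k + 1, m, by omega, N', V, g, W, h5, hV, ?_, ?_, hR⟩
      · rw [h4.keys]; exact hVN
      · rw [h4.keys]; omega
    · refine ⟨k, m + 1, by omega, N, V, Function.update g j M, W, h5, hV, hVN, hlen, ?_⟩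
      have hj' : j ∈ lo :: V.keys := by rw [hVN]; exact hj
      exact RotN.step (rot_hole hDV hj' h4.symm) hR
    · have hy : y ∉ lo :: N.keys := hDt'.not_mem hj (by rw [h4]; simp [keys])
      refine ⟨k + 1, m, by omega, N', ext j y lo V, spl g j a y b, fun m => ext j y m (W m), h6, ?_, ?_, ?_, ?_⟩
      · rw [hV, ext_fill]
      · rw [h5.keys]
        exact keys_ext_congr hVN
      · rw [h5.keys]
        have := length_ext_le (j := j) (y := y) hDN
        omega
      · rw [fill_ext h4 (by rw [hVN]; exact hy)]
        exact hR

end BT

end Pool.Agent.SS
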