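import Pool.Agent.Helper34.SS.Sim

/-!
# Semisplaying: the simulation theorem
-/

set_option autoImplicit false

namespace Pool.Agent.SS

namespace BT

theorem semi_le (p : List Step) (t : BT) : (semi p t).2 ≤ p.length := by
  induction p, t using semi.induct with
  | case1 t => simp [semi]
  | case2 t k s => simp [semi]
  | case3 t k s => simp [semi]
  | case4 p a g b up t ih => simp only [semi, List.length_cons]; omega
  | case5 p a g b up t ih => simp only [semi, List.length_cons]; omega
  | case6 p a g b up => simp [semi]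
  | case7 p a g b up u c v ih => simp only [semi, List.length_cons]; omega
  | case8 p a g b up => simp [semi]
  | case9 p a g b up u c v ih => simp only [semi, List.length_cons]; omega

theorem accessCost_le (x : ℕ) (t : BT) : accessCost x t ≤ 1 + 2 * depth x t := by
  have h1 := semi_le (path x t []).1 (path x t []).2
  rw [length_path] at h1
  unfold accessCost
  simp only [List.length_nil] at h1
  omega

theorem Near.cost {t : BT} {σ τ : List ℕ} (h : Near t σ τ) : semiCost t τ ≤ 7 * τ.length := by
  induction h with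
  | done t => simp [semiCost]
  | @keep t x σ τ h1 _ ih =>
    have := accessCost_le x t
    simp only [semiCost, List.length_cons]
    omega
  | @ins t y σ τ h1 _ ih =>
    have := accessCost_le y t
    simp only [semiCost, List.length_cons]
    omega

theorem depth_lt {x : ℕ} {t : BT} (ht : Srt t) (hx : x ∈ t.keys) : depth x t + 1 ≤ t.keys.length := by
  induction t with
  | nil => simp [keys] at hx
  | node l k r ihl ihr =>
    obtain ⟨s1, s2, s3, s4⟩ := srt_node.1 ht
    rw [depth]
    simp only [keys, List.length_append, List.length_cons]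
    split_ifs with h5 h6
    · have : x ∈ l.keys := by
        rcases mem_node.1 hx with h | h | h
        · exact h
        · omega
        · have := s4 _ h; omega
      have := ihl s1 this
      omega
    · have : x ∈ r.keys := by
        rcases mem_node.1 hx with h | h | h
        · have := s3 _ h; omega
        · omega
        · exact h
      have := ihr s2 this
      omega
    · omega

theorem near_self {t : BT} (ht : Srt t) (h2 : t.keys.length ≤ 2) (σ : List ℕ) (hσ : ∀ x ∈ σ, x ∈ t.keys) :
    Near t σ σ := by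
  induction σ with
  | nil => exact Near.done t
  | cons x σ ih =>
    have h3 := depth_lt ht (hσ x (by simp))
    have h4 : depth x t ≤ 1 := by omega
    refine Near.keep h4 ?_
    rw [splayed_shallow h4]
    exact ih (fun y hy => hσ y (List.mem_cons_of_mem _ hy))

theorem Run.length_le {t : BT} {σ : List ℕ} {c : ℕ} (h : Run t σ c) : σ.length ≤ c := by
  induction h with
  | done t => simp
  | rot _ _ ih => omega
  | access _ ih => simp only [List.length_cons]; omega

theorem keys_unique {L M : List ℕ} (hL : L.Pairwise (· < ·)) (hM : M.Pairwise (· < ·))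
    (h : ∀ x, x ∈ L ↔ x ∈ M) : L = M := by
  induction L generalizing M with
  | nil =>
    cases M with
    | nil => rfl
    | cons a M => exact absurd ((h a).2 (by simp)) (by simp)
  | cons a L ih =>
    cases M with
    | nil => exact absurd ((h a).1 (by simp)) (by simp)
    | cons b M =>
      obtain ⟨h1, h2⟩ := List.pairwise_cons.1 hL
      obtain ⟨h3, h4⟩ := List.pairwise_cons.1 hM
      have hab : a = b := by
        rcases List.mem_cons.1 ((h a).1 (by simp)) with h5 | h5
        · exact h5
        · rcases List.mem_cons.1 ((h b).2 (by simp)) with h6 | h6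
          · exact h6.symm
          · have := h1 b h6
            have := h3 a h5
            omega
      subst hab
      rw [ih h2 h4 (fun x => ?_)]
      constructor
      · intro hx
        rcases List.mem_cons.1 ((h x).1 (List.mem_cons_of_mem _ hx)) with h5 | h5
        · have := h1 x hx; omega
        · exact h5
      · intro hx
        rcases List.mem_cons.1 ((h x).2 (List.mem_cons_of_mem _ hx)) with h5 | h5
        · have := h3 x hx; omega
        · exact h5

theorem exists_near {n : ℕ} {T : BT} {σ : List ℕ} (hT : T.keys = List.range' 1 n)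
    (hσ : ∀ x ∈ σ, 1 ≤ x ∧ x ≤ n) :
    ∃ τ, (∀ x ∈ τ, 1 ≤ x ∧ x ≤ n) ∧ Near T σ τ ∧ τ.length ≤ 60 * (opt T σ + n) := by
  have hS : Srt T := by unfold Srt; rw [hT]; exact List.pairwise_lt_range'
  have hmem : ∀ x, x ∈ T.keys ↔ 1 ≤ x ∧ x ≤ n := by
    intro x
    rw [hT, List.mem_range'_1]
    omega
  have hrun := opt_run hS (fun x hx => (hmem x).2 (hσ x hx))
  by_cases hn : n ≤ 2
  · refine ⟨σ, hσ, near_self hS (by rw [hT]; simpa using hn) σ (fun x hx => (hmem x).2 (hσ x hx)), ?_⟩
    have := hrun.length_le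
    omega
  · obtain ⟨m, rfl⟩ : ∃ m, n = m + 2 := ⟨n - 2, by omega⟩
    have hm : 1 ≤ m := by omega
    obtain ⟨c1, hc1, r1⟩ := run_mg (a := 1) (c := 2) (Or.inr rfl) hrun hS ((hmem 1).2 (by omega))
      ((hmem 2).2 (by omega)) (fun x hx => (hmem x).2 (hσ x hx))
    obtain ⟨S1, M1, -⟩ := mg_spec (a := 1) (c := 2) (Or.inr rfl) hS ((hmem 1).2 (by omega)) ((hmem 2).2 (by omega))
    set J1 := mg 1 (1 + 1) 2 T with hJ1
    have hmem1 : ∀ x, x ∈ J1.keys ↔ 2 ≤ x ∧ x ≤ m + 2 := by
      intro x
      rw [M1, hmem]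
      omega
    have hσ1 : ∀ x ∈ σ.map (ren 1 2), x ∈ J1.keys := by
      intro x hx
      obtain ⟨y, hy, rfl⟩ := List.mem_map.1 hx
      rw [hmem1]
      have := hσ y hy
      unfold ren
      split_ifs with h <;> omega
    obtain ⟨c2, hc2, r2⟩ := run_mg (a := m + 1) (c := m + 1) (Or.inl rfl) r1 S1 ((hmem1 _).2 (by omega))
      ((hmem1 _).2 (by omega)) hσ1
    obtain ⟨S2, M2, -⟩ := mg_spec (a := m + 1) (c := m + 1) (Or.inl rfl) S1 ((hmem1 _).2 (by omega))
      ((hmem1 _).2 (by omega))
    set J2 := mg (m + 1) (m + 1 + 1) (m + 1) J1 with hJ2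
    have hmem2 : ∀ x, x ∈ J2.keys ↔ 2 ≤ x ∧ x ≤ m + 1 := by
      intro x
      rw [M2, hmem1]
      omega
    have hσ2 : ∀ x ∈ (σ.map (ren 1 2)).map (ren (m + 1) (m + 1)), x ∈ J2.keys := by
      intro x hx
      obtain ⟨y, hy, rfl⟩ := List.mem_map.1 hx
      rw [hmem2]
      have := (hmem1 y).1 (hσ1 y hy)
      unfold ren
      split_ifs with h <;> omega
    have hD : Dis 0 J2 := by
      unfold Dis
      rw [List.nodup_cons]
      refine ⟨fun h => ?_, ?_⟩
      · have := (hmem2 0).1 h; omega
      · exact S2.imp (fun h => by omega)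
    obtain ⟨c3, hc3, r3⟩ := near_run r2 (RotN.refl J2) (lo := 0) hD S2 hσ2
    obtain ⟨k, hk, I, -, hch⟩ := init hT hm
    have hKI := hch.keys hS
    have hIS : Srt (cap 1 (m + 2) I) := srt_congr hKI hS
    have hI : I.keys = J2.keys := by
      have h1 := hIS
      unfold Srt at h1
      rw [keys_cap] at h1
      obtain ⟨h2, h3⟩ := List.pairwise_cons.1 h1
      obtain ⟨h4, -, h5⟩ := List.pairwise_append.1 h3
      refine keys_unique h4 S2 (fun x => ?_)
      rw [hmem2]
      constructor
      · intro hx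
        have := h2 x (List.mem_append_left _ hx)
        have := h5 x hx (m + 2) (by simp)
        omega
      · intro hx
        have h6 : x ∈ (cap 1 (m + 2) I).keys := by
          rw [hKI, hmem]; omega
        rw [keys_cap] at h6
        rcases List.mem_cons.1 h6 with h | h
        · omega
        · rcases List.mem_append.1 h with h | h
          · exact h
          · have := List.mem_singleton.1 h; omega
    obtain ⟨n1, hn1, hmv⟩ := moves (N := I) (V := J2) hI.symm
    have hlen : I.keys.length ≤ m := by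
      have := congrArg List.length hKI
      rw [keys_cap, hT] at this
      simp at this
      omega
    have r4 := hmv.nrun r3
    obtain ⟨τ, a1, a2, a3⟩ := sim_nrun (n := m) r4 (σ := σ) (by rw [List.map_map]; rfl) hσ (by rw [hKI, hT])
    obtain ⟨τ', b1, b2, b3⟩ := hch.near hS a1 a3
    refine ⟨τ', fun x hx => (hmem x).1 (b3 x hx), b1, ?_⟩
    omega

/-- The main theorem. -/
theorem main : ∃ A : ℕ, ∀ n : ℕ,
    (∀ (T : BT) (σ : List ℕ), T.keys = List.range' 1 n → (∀ x ∈ σ, 1 ≤ x ∧ x ≤ n) →
      ∃ τ : List ℕ, (∀ x ∈ τ, 1 ≤ x ∧ x ≤ n) ∧ Near T σ τ ∧ τ.length ≤ A * (opt T σ + n)) ∧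
    (∀ (T : BT) (σ τ : List ℕ), T.keys = List.range' 1 n → (∀ x ∈ τ, 1 ≤ x ∧ x ≤ n) → Near T σ τ →
      opt T σ ≤ 7 * τ.length) ∧
    ∀ K : ℕ,
      ((∀ (T : BT) (σ : List ℕ), T.keys = List.range' 1 n → (∀ x ∈ σ, 1 ≤ x ∧ x ≤ n) →
          semiCost T σ ≤ K * (opt T σ + n)) →
        ∀ (T : BT) (σ τ : List ℕ), T.keys = List.range' 1 n → (∀ x ∈ τ, 1 ≤ x ∧ x ≤ n) → σ.Sublist τ →
          semiCost T σ ≤ K * (semiCost T τ + n)) ∧
      ((∀ (T : BT) (σ τ : List ℕ), T.keys = List.range' 1 n → (∀ x ∈ τ, 1 ≤ x ∧ x ≤ n) → Near T σ τ →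
          semiCost T σ ≤ K * (τ.length + n)) →
        ∀ (T : BT) (σ : List ℕ), T.keys = List.range' 1 n → (∀ x ∈ σ, 1 ≤ x ∧ x ≤ n) →
          semiCost T σ ≤ A * K * (opt T σ + n)) := by
  refine ⟨61, fun n => ⟨fun T σ hT hσ => ?_, fun T σ τ hT hτ hN => ?_, fun K => ⟨fun h T σ τ hT hτ hs => ?_,
    fun h T σ hT hσ => ?_⟩⟩⟩
  · obtain ⟨τ, h1, h2, h3⟩ := exists_near hT hσ
    exact ⟨τ, h1, h2, by omega⟩
  · have hS : Srt T := by unfold Srt; rw [hT]; exact List.pairwise_lt_range'
    refine (opt_le_semiCost hS (τ := τ) (fun x hx => ?_) hN.sublist).trans hN.cost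
    rw [hT, List.mem_range'_1]
    have := hτ x hx
    omega
  · have hS : Srt T := by unfold Srt; rw [hT]; exact List.pairwise_lt_range'
    have h1 := opt_le_semiCost hS (τ := τ) (fun x hx => by
      rw [hT, List.mem_range'_1]
      have := hτ x hx
      omega) hs
    refine (h T σ hT (fun x hx => hτ x (hs.subset hx))).trans (Nat.mul_le_mul_left K ?_)
    omega
  · obtain ⟨τ, h1, h2, h3⟩ := exists_near hT hσ
    refine (h T σ τ hT h1 h2).trans ?_
    calc K * (τ.length + n) ≤ K * (61 * (opt T σ + n)) := Nat.mul_le_mul_left K (by omega)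
      _ = 61 * K * (opt T σ + n) := by ring

end BT

end Pool.Agent.SS
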