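import Pool.Agent.Helper34.SS.Moves

/-!
# Semisplaying: merging two adjacent keys
-/

set_option autoImplicit false

namespace Pool.Agent.SS

namespace BT

def rmMin : BT → BT
  | nil => nil
  | node nil _ r => r
  | node (node a x b) k r => node (rmMin (node a x b)) k r

def rmMax : BT → BT
  | nil => nil
  | node l _ nil => l
  | node l k (node a x b) => node l k (rmMax (node a x b))

theorem rmMin_node {l r : BT} {k : ℕ} (h : l ≠ nil) : rmMin (node l k r) = node (rmMin l) k r := by
  cases l with
  | nil => exact absurd rfl h
  | node a x b => rfl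

theorem rmMax_node {l r : BT} {k : ℕ} (h : r ≠ nil) : rmMax (node l k r) = node l k (rmMax r) := by
  cases r with
  | nil => exact absurd rfl h
  | node a x b => rfl

theorem keys_rmMin (t : BT) : (rmMin t).keys = t.keys.tail := by
  induction t with
  | nil => rfl
  | node l k r ihl ihr =>
    cases l with
    | nil => rfl
    | node a x b =>
      rw [rmMin_node (by simp)]
      have h : (node a x b).keys ≠ [] := by simp [keys]
      rw [keys, keys, ihl]
      cases h' : (node a x b).keys with
      | nil => exact absurd h' h
      | cons y L => simp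

theorem keys_rmMax (t : BT) : (rmMax t).keys = t.keys.dropLast := by
  induction t with
  | nil => rfl
  | node l k r ihl ihr =>
    cases r with
    | nil => simp [rmMax, keys]
    | node a x b =>
      rw [rmMax_node (by simp)]
      have h : (node a x b).keys ≠ [] := by simp [keys]
      rw [keys, keys, ihr]
      generalize (node a x b).keys = M at h ⊢
      rw [List.dropLast_append_of_ne_nil (by simp), List.dropLast_cons_of_ne_nil h]

theorem Rot.ne_nil {t t' : BT} (h : Rot t t') : t ≠ nil ∧ t' ≠ nil := by
  cases h <;> simp

theorem rot_rmMin {t t' : BT} (h : Rot t t') : rmMin t = rmMin t' ∨ Rot (rmMin t) (rmMin t') := by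
  induction h with
  | right a x b y c =>
    cases a with
    | nil => exact Or.inl rfl
    | node p z q => exact Or.inr (Rot.right (rmMin (node p z q)) x b y c)
  | left a x b y c =>
    cases a with
    | nil => exact Or.inl rfl
    | node p z q => exact Or.inr (Rot.left (rmMin (node p z q)) x b y c)
  | inl k r h1 ih =>
    rw [rmMin_node h1.ne_nil.1, rmMin_node h1.ne_nil.2]
    rcases ih with h | h
    · rw [h]; exact Or.inl rfl
    · exact Or.inr (Rot.inl k r h)
  | inr l k h1 ih =>
    cases l with
    | nil => exact Or.inr h1
    | node p z q => exact Or.inr (Rot.inr (rmMin (node p z q)) k h1)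

theorem rot_rmMax {t t' : BT} (h : Rot t t') : rmMax t = rmMax t' ∨ Rot (rmMax t) (rmMax t') := by
  induction h with
  | right a x b y c =>
    cases c with
    | nil => exact Or.inl rfl
    | node p z q => exact Or.inr (Rot.right a x b y (rmMax (node p z q)))
  | left a x b y c =>
    cases c with
    | nil => exact Or.inl rfl
    | node p z q => exact Or.inr (Rot.left a x b y (rmMax (node p z q)))
  | inr l k h1 ih =>
    rw [rmMax_node h1.ne_nil.1, rmMax_node h1.ne_nil.2]
    rcases ih with h | h
    · rw [h]; exact Or.inl rfl
    · exact Or.inr (Rot.inr l k h)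
  | inl k r h1 ih =>
    cases r with
    | nil => exact Or.inr h1
    | node p z q => exact Or.inr (Rot.inl k (rmMax (node p z q)) h1)

theorem srt_rmMin {t : BT} (h : Srt t) : Srt (rmMin t) := by
  unfold Srt at *
  rw [keys_rmMin]
  exact h.sublist (List.tail_sublist _)

theorem srt_rmMax {t : BT} (h : Srt t) : Srt (rmMax t) := by
  unfold Srt at *
  rw [keys_rmMax]
  exact h.sublist (List.dropLast_sublist _)

theorem depth_rmMin {t : BT} (h : Srt t) {x : ℕ} (hx : x ∈ (rmMin t).keys) : depth x (rmMin t) ≤ depth x t := by
  induction t with
  | nil => simp [rmMin, keys] at hx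
  | node l k r ihl _ =>
    obtain ⟨h1, h2, h3, h4⟩ := srt_node.1 h
    cases l with
    | nil =>
      change x ∈ r.keys at hx
      have := h4 x hx
      show depth x r ≤ depth x (node nil k r)
      rw [depth, if_neg (by omega), if_pos this]
      omega
    | node a y b =>
      rw [rmMin_node (by simp)] at hx ⊢
      rw [depth, depth]
      split_ifs with h5 h6
      · have : x ∈ (rmMin (node a y b)).keys := by
          rcases mem_node.1 hx with h | h | h
          · exact h
          · omega
          · have := h4 x h; omega
        have := ihl h1 this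
        omega
      · exact le_refl _
      · exact le_refl _

theorem depth_rmMax {t : BT} (h : Srt t) {x : ℕ} (hx : x ∈ (rmMax t).keys) : depth x (rmMax t) ≤ depth x t := by
  induction t with
  | nil => simp [rmMax, keys] at hx
  | node l k r _ ihr =>
    obtain ⟨h1, h2, h3, h4⟩ := srt_node.1 h
    cases r with
    | nil =>
      change x ∈ l.keys at hx
      have := h3 x hx
      show depth x l ≤ depth x (node l k nil)
      rw [depth, if_pos this]
      omega
    | node a y b =>
      rw [rmMax_node (by simp)] at hx ⊢
      rw [depth, depth]
      split_ifs with h5 h6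
      · exact le_refl _
      · have : x ∈ (rmMax (node a y b)).keys := by
          rcases mem_node.1 hx with h | h | h
          · have := h3 x h; omega
          · omega
          · exact h
        have := ihr h2 this
        omega
      · exact le_refl _

/-- merge the adjacent keys `a < b`; the new key is `c` -/
def mg (a b c : ℕ) : BT → BT
  | nil => nil
  | node l k r =>
    if k = a then node l c (rmMin r)
    else if k = b then node (rmMax l) c r
    else if k < a then node l k (mg a b c r)
    else node (mg a b c l) k r

theorem mg_a {a b c : ℕ} {l r : BT} : mg a b c (node l a r) = node l c (rmMin r) := by simp [mg]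

theorem mg_b {a b c : ℕ} (hab : a < b) {l r : BT} : mg a b c (node l b r) = node (rmMax l) c r := by
  have : b ≠ a := by omega
  simp [mg, this]

theorem mg_lt {a b c k : ℕ} (hab : a < b) (hk : k < a) {l r : BT} :
    mg a b c (node l k r) = node l k (mg a b c r) := by
  have h1 : k ≠ a := by omega
  have h2 : k ≠ b := by omega
  simp [mg, h1, h2, hk]

theorem mg_gt {a b c k : ℕ} (hab : a < b) (hk : b < k) {l r : BT} :
    mg a b c (node l k r) = node (mg a b c l) k r := by
  have h1 : k ≠ a := by omega
  have h2 : k ≠ b := by omega
  have h3 : ¬ k < a := by omega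
  simp [mg, h1, h2, h3]

theorem head_of_mem {r : BT} {a : ℕ} (h : Srt r) (h1 : ∀ x ∈ r.keys, a < x) (h2 : a + 1 ∈ r.keys) :
    ∃ L, r.keys = (a + 1) :: L := by
  unfold Srt at h
  cases hr : r.keys with
  | nil => rw [hr] at h2; simp at h2
  | cons y L =>
    rw [hr] at h h1 h2
    have h3 := h1 y (by simp)
    rcases List.mem_cons.1 h2 with h4 | h4
    · exact ⟨L, by rw [h4]⟩
    · have := (List.pairwise_cons.1 h).1 _ h4
      omega

theorem last_of_mem {l : BT} {a : ℕ} (h : Srt l) (h1 : ∀ x ∈ l.keys, x < a + 1) (h2 : a ∈ l.keys) :
    ∃ L, l.keys = L ++ [a] := by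
  unfold Srt at h
  rcases List.eq_nil_or_concat l.keys with hl | ⟨L, y, hl⟩
  · rw [hl] at h2; simp at h2
  · rw [List.concat_eq_append] at hl
    rw [hl] at h h1 h2
    have h3 := h1 y (by simp)
    rcases List.mem_append.1 h2 with h4 | h4
    · have := (List.pairwise_append.1 h).2.2 _ h4 y (by simp)
      omega
    · exact ⟨L, by rw [hl, List.mem_singleton.1 h4]⟩

section

variable {a c : ℕ}

theorem mg_spec (hc : c = a ∨ c = a + 1) {t : BT} (ht : Srt t) (h1 : a ∈ t.keys) (h2 : a + 1 ∈ t.keys) :
    Srt (mg a (a + 1) c t) ∧
    (∀ x, x ∈ (mg a (a + 1) c t).keys ↔ x = c ∨ (x ∈ t.keys ∧ x ≠ a ∧ x ≠ a + 1)) ∧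
    (∀ x ∈ t.keys, x ≠ a → x ≠ a + 1 → depth x (mg a (a + 1) c t) ≤ depth x t) ∧
    depth c (mg a (a + 1) c t) ≤ depth a t ∧ depth c (mg a (a + 1) c t) ≤ depth (a + 1) t := by
  induction t with
  | nil => simp [keys] at h1
  | node l k r ihl ihr =>
    obtain ⟨s1, s2, s3, s4⟩ := srt_node.1 ht
    have hcases : k = a ∨ k = a + 1 ∨ k < a ∨ a + 1 < k := by omega
    rcases hcases with rfl | rfl | hk | hk
    · rw [mg_a]
      have h3 : k + 1 ∈ r.keys := by
        rcases mem_node.1 h2 with h | h | h
        · have := s3 _ h; omega
        · omega
        · exact h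
      obtain ⟨L, hL⟩ := head_of_mem s2 s4 h3
      have hr : (rmMin r).keys = L := by rw [keys_rmMin, hL]; rfl
      have hs : Srt (rmMin r) := srt_rmMin s2
      have hLb : ∀ x ∈ L, k + 1 < x := by
        have := s2
        unfold Srt at this
        rw [hL] at this
        exact (List.pairwise_cons.1 this).1
      refine ⟨srt_node.2 ⟨s1, hs, fun x hx => ?_, fun x hx => ?_⟩, fun x => ?_, fun x hx hxa hxb => ?_, ?_, ?_⟩
      · have := s3 x hx; omega
      · rw [hr] at hx; have := hLb x hx; omega
      · rw [mem_node, mem_node, hr, hL, List.mem_cons]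
        constructor
        · rintro (h | h | h)
          · have := s3 x h; exact Or.inr ⟨Or.inl h, by omega, by omega⟩
          · exact Or.inl h
          · have := hLb x h; exact Or.inr ⟨Or.inr (Or.inr (Or.inr h)), by omega, by omega⟩
        · rintro (h | ⟨h | h | h | h, h5, h6⟩)
          · exact Or.inr (Or.inl h)
          · exact Or.inl h
          · exact absurd h h5
          · exact absurd h h6
          · exact Or.inr (Or.inr h)
      · rcases mem_node.1 hx with h | h | h
        · have := s3 x h
          rw [depth, depth, if_pos (by omega), if_pos this]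
        · exact absurd h hxa
        · have h5 := s4 x h
          rw [depth, depth, if_neg (by omega), if_pos (by omega), if_neg (by omega), if_pos h5]
          have : x ∈ (rmMin r).keys := by
            rw [hr]
            rw [hL] at h
            rcases List.mem_cons.1 h with h | h
            · exact absurd h hxb
            · exact h
          have := depth_rmMin s2 this
          omega
      · rw [depth, if_neg (lt_irrefl c), if_neg (lt_irrefl c)]; exact Nat.zero_le _
      · rw [depth, if_neg (lt_irrefl c), if_neg (lt_irrefl c)]; exact Nat.zero_le _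
    · rw [mg_b (by omega)]
      have h3 : a ∈ l.keys := by
        rcases mem_node.1 h1 with h | h | h
        · exact h
        · omega
        · have := s4 _ h; omega
      obtain ⟨L, hL⟩ := last_of_mem s1 s3 h3
      have hr : (rmMax l).keys = L := by rw [keys_rmMax, hL]; simp
      have hs : Srt (rmMax l) := srt_rmMax s1
      have hLb : ∀ x ∈ L, x < a := by
        have := s1
        unfold Srt at this
        rw [hL] at this
        intro x hx
        exact (List.pairwise_append.1 this).2.2 x hx a (by simp)
      refine ⟨srt_node.2 ⟨hs, s2, fun x hx => ?_, fun x hx => ?_⟩, fun x => ?_, fun x hx hxa hxb => ?_, ?_, ?_⟩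
      · rw [hr] at hx; have := hLb x hx; omega
      · have := s4 x hx; omega
      · rw [mem_node, mem_node, hr, hL, List.mem_append, List.mem_singleton]
        constructor
        · rintro (h | h | h)
          · have := hLb x h; exact Or.inr ⟨Or.inl (Or.inl h), by omega, by omega⟩
          · exact Or.inl h
          · have := s4 x h; exact Or.inr ⟨Or.inr (Or.inr h), by omega, by omega⟩
        · rintro (h | ⟨(h | h) | h | h, h5, h6⟩)
          · exact Or.inr (Or.inl h)
          · exact Or.inl h
          · exact absurd h h5
          · exact absurd h h6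
          · exact Or.inr (Or.inr h)
      · rcases mem_node.1 hx with h | h | h
        · have h5 := s3 x h
          rw [depth, depth, if_pos (by omega), if_pos h5]
          have : x ∈ (rmMax l).keys := by
            rw [hr]
            rw [hL] at h
            rcases List.mem_append.1 h with h | h
            · exact h
            · exact absurd (List.mem_singleton.1 h) hxa
          have := depth_rmMax s1 this
          omega
        · exact absurd h hxb
        · have h5 := s4 x h
          rw [depth, depth, if_neg (by omega), if_pos (by omega), if_neg (by omega), if_pos h5]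
      · rw [depth, if_neg (lt_irrefl c), if_neg (lt_irrefl c)]; exact Nat.zero_le _
      · rw [depth, if_neg (lt_irrefl c), if_neg (lt_irrefl c)]; exact Nat.zero_le _
    · rw [mg_lt (by omega) hk]
      have m1 : a ∈ r.keys := by
        rcases mem_node.1 h1 with h | h | h
        · have := s3 _ h; omega
        · omega
        · exact h
      have m2 : a + 1 ∈ r.keys := by
        rcases mem_node.1 h2 with h | h | h
        · have := s3 _ h; omega
        · omega
        · exact h
      obtain ⟨i1, i2, i3, i4, i5⟩ := ihr s2 m1 m2
      refine ⟨srt_node.2 ⟨s1, i1, s3, fun x hx => ?_⟩, fun x => ?_, fun x hx hxa hxb => ?_, ?_, ?_⟩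
      · rcases (i2 x).1 hx with h | h
        · omega
        · exact s4 x h.1
      · rw [mem_node, mem_node, i2]
        constructor
        · rintro (h | h | h | h)
          · have := s3 x h; exact Or.inr ⟨Or.inl h, by omega, by omega⟩
          · exact Or.inr ⟨Or.inr (Or.inl h), by omega, by omega⟩
          · exact Or.inl h
          · exact Or.inr ⟨Or.inr (Or.inr h.1), h.2.1, h.2.2⟩
        · rintro (h | ⟨h | h | h, h5, h6⟩)
          · exact Or.inr (Or.inr (Or.inl h))
          · exact Or.inl h
          · exact Or.inr (Or.inl h)
          · exact Or.inr (Or.inr (Or.inr ⟨h, h5, h6⟩))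
      · rw [depth, depth]
        split_ifs with h5 h6
        · exact le_refl _
        · have : x ∈ r.keys := by
            rcases mem_node.1 hx with h | h | h
            · have := s3 _ h; omega
            · omega
            · exact h
          have := i3 x this hxa hxb
          omega
        · exact le_refl _
      · rw [depth, if_neg (by omega), if_pos (by omega), depth, if_neg (by omega), if_pos (by omega)]
        omega
      · rw [depth, if_neg (by omega), if_pos (by omega), depth, if_neg (by omega), if_pos (by omega)]
        omega
    · rw [mg_gt (by omega) hk]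
      have m1 : a ∈ l.keys := by
        rcases mem_node.1 h1 with h | h | h
        · exact h
        · omega
        · have := s4 _ h; omega
      have m2 : a + 1 ∈ l.keys := by
        rcases mem_node.1 h2 with h | h | h
        · exact h
        · omega
        · have := s4 _ h; omega
      obtain ⟨i1, i2, i3, i4, i5⟩ := ihl s1 m1 m2
      refine ⟨srt_node.2 ⟨i1, s2, fun x hx => ?_, s4⟩, fun x => ?_, fun x hx hxa hxb => ?_, ?_, ?_⟩
      · rcases (i2 x).1 hx with h | h
        · omega
        · exact s3 x h.1
      · rw [mem_node, mem_node, i2]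
        constructor
        · rintro ((h | h) | h | h)
          · exact Or.inl h
          · exact Or.inr ⟨Or.inl h.1, h.2.1, h.2.2⟩
          · exact Or.inr ⟨Or.inr (Or.inl h), by omega, by omega⟩
          · have := s4 x h; exact Or.inr ⟨Or.inr (Or.inr h), by omega, by omega⟩
        · rintro (h | ⟨h | h | h, h5, h6⟩)
          · exact Or.inl (Or.inl h)
          · exact Or.inl (Or.inr ⟨h, h5, h6⟩)
          · exact Or.inr (Or.inl h)
          · exact Or.inr (Or.inr h)
      · rw [depth, depth]
        split_ifs with h5 h6
        · have : x ∈ l.keys := by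
            rcases mem_node.1 hx with h | h | h
            · exact h
            · omega
            · have := s4 _ h; omega
          have := i3 x this hxa hxb
          omega
        · exact le_refl _
        · exact le_refl _
      · rw [depth, if_pos (by omega), depth, if_pos (by omega)]
        omega
      · rw [depth, if_pos (by omega), depth, if_pos (by omega)]
        omega

theorem ne_nil_of_mem {t : BT} {x : ℕ} (h : x ∈ t.keys) : t ≠ nil := by
  rintro rfl
  simp [keys] at h

theorem mg_pair {A B C : BT} {x y : ℕ} (ht : Srt (node (node A x B) y C)) (h1 : a ∈ (node (node A x B) y C).keys)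
    (h2 : a + 1 ∈ (node (node A x B) y C).keys) :
    mg a (a + 1) c (node (node A x B) y C) = mg a (a + 1) c (node A x (node B y C)) ∨
    Rot (mg a (a + 1) c (node (node A x B) y C)) (mg a (a + 1) c (node A x (node B y C))) := by
  obtain ⟨s1, s2, s3, s4⟩ := srt_node.1 ht
  obtain ⟨t1, t2, t3, t4⟩ := srt_node.1 s1
  have hxy : x < y := s3 x (by simp [keys])
  have hB : ∀ z ∈ B.keys, z < y := fun z hz => s3 z (by simp [keys, hz])
  have hA : ∀ z ∈ A.keys, z < y := fun z hz => s3 z (by simp [keys, hz])
  have hab : a < a + 1 := by omega
  simp only [mem_node] at h1 h2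
  have hcases : x = a ∨ x = a + 1 ∨ x < a ∨ a + 1 < x := by omega
  rcases hcases with rfl | rfl | hx | hx
  · by_cases hy : y = x + 1
    · subst hy
      have hBn : B = nil := by
        cases B with
        | nil => rfl
        | node p z q =>
          have := t4 z (by simp [keys])
          have := hB z (by simp [keys])
          omega
      subst hBn
      left
      rw [mg_b hab, mg_a]
      rfl
    · right
      have hb : x + 1 ∈ B.keys := by
        rcases h2 with (h | h | h) | h | h
        · have := t3 _ h; omega
        · omega
        · exact h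
        · omega
        · have := s4 _ h; omega
      rw [mg_gt hab (by omega), mg_a, mg_a, rmMin_node (ne_nil_of_mem hb)]
      exact Rot.right _ _ _ _ _
  · right
    have ha : a ∈ A.keys := by
      rcases h1 with (h | h | h) | h | h
      · exact h
      · omega
      · have := t4 _ h; omega
      · omega
      · have := s4 _ h; omega
    rw [mg_gt hab (by omega), mg_b hab, mg_b hab]
    exact Rot.right _ _ _ _ _
  · have hcases2 : y = a ∨ y = a + 1 ∨ y < a ∨ a + 1 < y := by omega
    right
    rcases hcases2 with rfl | rfl | hy | hy
    · rw [mg_a, mg_lt hab hx, mg_a]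
      exact Rot.right _ _ _ _ _
    · have ha : a ∈ B.keys := by
        rcases h1 with (h | h | h) | h | h
        · have := t3 _ h; omega
        · omega
        · exact h
        · omega
        · have := s4 _ h; omega
      rw [mg_b hab, rmMax_node (ne_nil_of_mem ha), mg_lt hab hx, mg_b hab]
      exact Rot.right _ _ _ _ _
    · rw [mg_lt hab hy, mg_lt hab hx, mg_lt hab hy]
      exact Rot.right _ _ _ _ _
    · rw [mg_gt hab hy, mg_lt hab hx, mg_lt hab hx, mg_gt hab hy]
      exact Rot.right _ _ _ _ _
  · right
    rw [mg_gt hab (by omega), mg_gt hab hx, mg_gt hab hx]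
    exact Rot.right _ _ _ _ _

theorem rot_mg {t t' : BT} (h : Rot t t') : Srt t → a ∈ t.keys → a + 1 ∈ t.keys →
    (mg a (a + 1) c t = mg a (a + 1) c t' ∨ Rot (mg a (a + 1) c t) (mg a (a + 1) c t')) := by
  have hab : a < a + 1 := by omega
  induction h with
  | right A x B y C => exact fun ht h1 h2 => mg_pair ht h1 h2
  | left A x B y C =>
    intro ht h1 h2
    have hk : (node (node A x B) y C).keys = (node A x (node B y C)).keys := by simp [keys]
    have := mg_pair (c := c) (show Srt (node (node A x B) y C) from by unfold Srt at *; rw [hk]; exact ht)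
      (by rw [hk]; exact h1) (by rw [hk]; exact h2)
    rcases this with h | h
    · exact Or.inl h.symm
    · exact Or.inr h.symm
  | @inl l l' k r hr ih =>
    intro ht h1 h2
    obtain ⟨s1, s2, s3, s4⟩ := srt_node.1 ht
    have hcases : k = a ∨ k = a + 1 ∨ k < a ∨ a + 1 < k := by omega
    rcases hcases with rfl | rfl | hk | hk
    · rw [mg_a, mg_a]
      exact Or.inr (Rot.inl _ _ hr)
    · rw [mg_b hab, mg_b hab]
      rcases rot_rmMax hr with h | h
      · rw [h]; exact Or.inl rfl
      · exact Or.inr (Rot.inl _ _ h)
    · rw [mg_lt hab hk, mg_lt hab hk]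
      exact Or.inr (Rot.inl _ _ hr)
    · rw [mg_gt hab hk, mg_gt hab hk]
      have m1 : a ∈ l.keys := by
        rcases mem_node.1 h1 with h | h | h
        · exact h
        · omega
        · have := s4 _ h; omega
      have m2 : a + 1 ∈ l.keys := by
        rcases mem_node.1 h2 with h | h | h
        · exact h
        · omega
        · have := s4 _ h; omega
      rcases ih s1 m1 m2 with h | h
      · rw [h]; exact Or.inl rfl
      · exact Or.inr (Rot.inl _ _ h)
  | @inr r r' l k hr ih =>
    intro ht h1 h2
    obtain ⟨s1, s2, s3, s4⟩ := srt_node.1 ht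
    have hcases : k = a ∨ k = a + 1 ∨ k < a ∨ a + 1 < k := by omega
    rcases hcases with rfl | rfl | hk | hk
    · rw [mg_a, mg_a]
      rcases rot_rmMin hr with h | h
      · rw [h]; exact Or.inl rfl
      · exact Or.inr (Rot.inr _ _ h)
    · rw [mg_b hab, mg_b hab]
      exact Or.inr (Rot.inr _ _ hr)
    · rw [mg_lt hab hk, mg_lt hab hk]
      have m1 : a ∈ r.keys := by
        rcases mem_node.1 h1 with h | h | h
        · have := s3 _ h; omega
        · omega
        · exact h
      have m2 : a + 1 ∈ r.keys := by
        rcases mem_node.1 h2 with h | h | h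
        · have := s3 _ h; omega
        · omega
        · exact h
      rcases ih s2 m1 m2 with h | h
      · rw [h]; exact Or.inl rfl
      · exact Or.inr (Rot.inr _ _ h)
    · rw [mg_gt hab hk, mg_gt hab hk]
      exact Or.inr (Rot.inr _ _ hr)

/-- renaming of the keys by the merging -/
def ren (a c x : ℕ) : ℕ := if x = a ∨ x = a + 1 then c else x

theorem run_mg (hc : c = a ∨ c = a + 1) {t : BT} {σ : List ℕ} {w : ℕ} (h : Run t σ w) : Srt t → a ∈ t.keys →
    a + 1 ∈ t.keys → (∀ x ∈ σ, x ∈ t.keys) → ∃ w' ≤ w, Run (mg a (a + 1) c t) (σ.map (ren a c)) w' := by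
  induction h with
  | done t => exact fun _ _ _ _ => ⟨0, le_refl _, Run.done _⟩
  | @rot t t' σ w h1 _ ih =>
    intro ht m1 m2 hσ
    have hk := h1.keys
    obtain ⟨w', h2, h3⟩ := ih (by unfold Srt at *; rw [hk]; exact ht) (by rw [hk]; exact m1) (by rw [hk]; exact m2)
      (fun x hx => by rw [hk]; exact hσ x hx)
    rcases rot_mg (c := c) h1 ht m1 m2 with h | h
    · rw [h]; exact ⟨w', by omega, h3⟩
    · exact ⟨w' + 1, by omega, Run.rot h h3⟩
  | @access t x σ w _ ih =>
    intro ht m1 m2 hσ
    obtain ⟨w', h2, h3⟩ := ih ht m1 m2 (fun y hy => hσ y (List.mem_cons_of_mem _ hy))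
    obtain ⟨-, -, d1, d2, d3⟩ := mg_spec hc ht m1 m2
    have hd : depth (ren a c x) (mg a (a + 1) c t) ≤ depth x t := by
      unfold ren
      split_ifs with h
      · rcases h with rfl | rfl
        · exact d2
        · exact d3
      · exact d1 x (hσ x (by simp)) (fun h' => h (Or.inl h')) (fun h' => h (Or.inr h'))
    exact ⟨w' + (1 + depth (ren a c x) (mg a (a + 1) c t)), by omega, Run.access h3⟩

end

end BT

end Pool.Agent.SS
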