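import Pool.Agent.Helper34.SS.Fill

/-!
# Semisplaying: restricted rotations and executions near the root
-/

set_option autoImplicit false

namespace Pool.Agent.SS

namespace BT

/-- a rotation at the root or at the right child of the root -/
inductive Mv : BT → BT → Prop
  | r0 (a : BT) (x : ℕ) (b : BT) (y : ℕ) (c : BT) : Mv (node (node a x b) y c) (node a x (node b y c))
  | l0 (a : BT) (x : ℕ) (b : BT) (y : ℕ) (c : BT) : Mv (node a x (node b y c)) (node (node a x b) y c)
  | r1 (t : BT) (w : ℕ) (a : BT) (x : ℕ) (b : BT) (y : ℕ) (c : BT) :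
      Mv (node t w (node (node a x b) y c)) (node t w (node a x (node b y c)))
  | l1 (t : BT) (w : ℕ) (a : BT) (x : ℕ) (b : BT) (y : ℕ) (c : BT) :
      Mv (node t w (node a x (node b y c))) (node t w (node (node a x b) y c))

theorem Mv.symm {t t' : BT} (h : Mv t t') : Mv t' t := by
  cases h with
  | r0 a x b y c => exact Mv.l0 a x b y c
  | l0 a x b y c => exact Mv.r0 a x b y c
  | r1 t w a x b y c => exact Mv.l1 t w a x b y c
  | l1 t w a x b y c => exact Mv.r1 t w a x b y c

theorem Mv.rot {t t' : BT} (h : Mv t t') : Rot t t' := by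
  cases h with
  | r0 a x b y c => exact Rot.right a x b y c
  | l0 a x b y c => exact Rot.left a x b y c
  | r1 t w a x b y c => exact Rot.inr t w (Rot.right a x b y c)
  | l1 t w a x b y c => exact Rot.inr t w (Rot.left a x b y c)

theorem Mv.fill {t t' : BT} (h : Mv t t') (f : ℕ → BT) (lo : ℕ) : Mv (BT.fill f lo t) (BT.fill f lo t') := by
  cases h with
  | r0 a x b y c => exact Mv.r0 _ x _ y _
  | l0 a x b y c => exact Mv.l0 _ x _ y _
  | r1 t w a x b y c => exact Mv.r1 _ w _ x _ y _
  | l1 t w a x b y c => exact Mv.l1 _ w _ x _ y _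

/-- `n` restricted rotations -/
inductive MvN : ℕ → BT → BT → Prop
  | refl (t : BT) : MvN 0 t t
  | step {n : ℕ} {t t' t'' : BT} : Mv t t' → MvN n t' t'' → MvN (n + 1) t t''

theorem MvN.trans {n m : ℕ} {t t' t'' : BT} (h : MvN n t t') (h' : MvN m t' t'') : MvN (n + m) t t'' := by
  induction h with
  | refl t => simpa using h'
  | @step n _ _ _ h1 _ ih =>
    have := MvN.step h1 (ih h')
    rwa [show n + 1 + m = n + m + 1 from by omega]

theorem MvN.symm {n : ℕ} {t t' : BT} (h : MvN n t t') : MvN n t' t := by
  induction h with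
  | refl t => exact MvN.refl t
  | step h1 _ ih => exact ih.trans (MvN.step h1.symm (MvN.refl _))

theorem MvN.keys {n : ℕ} {t t' : BT} (h : MvN n t t') : t'.keys = t.keys := by
  induction h with
  | refl t => rfl
  | step h1 _ ih => rw [ih, h1.rot.keys]

theorem MvN.fill {n : ℕ} {t t' : BT} (h : MvN n t t') (f : ℕ → BT) (lo : ℕ) :
    MvN n (BT.fill f lo t) (BT.fill f lo t') := by
  induction h with
  | refl t => exact MvN.refl _
  | step h1 _ ih => exact MvN.step (h1.fill f lo) ih

/-- left comb on top of `t` -/
def addComb (t : BT) (L : List ℕ) : BT := L.foldl (fun t k => node t k nil) t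

theorem keys_addComb (t : BT) (L : List ℕ) : (addComb t L).keys = t.keys ++ L := by
  induction L generalizing t with
  | nil => simp [addComb]
  | cons a L ih =>
    have := ih (node t a nil)
    simp only [addComb, List.foldl_cons] at this ⊢
    rw [this]
    simp [keys]

/-- number of steps of the second phase -/
def mu : BT → ℕ
  | nil => 0
  | node l _ r => 2 * l.keys.length + 1 + mu r

theorem mu_le (t : BT) : mu t ≤ 2 * t.keys.length := by
  induction t with
  | nil => simp [mu, keys]
  | node l k r _ ihr => simp only [mu, keys, List.length_append, List.length_cons]; omega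

theorem phase2 (n : ℕ) : ∀ (R P : BT) (x : ℕ), mu R = n → MvN n (node P x R) (addComb (node P x nil) R.keys) := by
  induction n with
  | zero =>
    intro R P x h
    cases R with
    | nil => exact MvN.refl _
    | node l k r => simp [mu] at h
  | succ n ih =>
    intro R P x h
    cases R with
    | nil => simp [mu] at h
    | node l y c =>
      cases l with
      | nil =>
        have h1 := ih c (node P x nil) y (by simp [mu, keys] at h; omega)
        exact MvN.step (Mv.l0 P x nil y c) h1
      | node a z b =>
        have h1 := ih (node a z (node b y c)) P x (by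
          simp only [mu, keys, List.length_append, List.length_cons] at h ⊢; omega)
        have h2 : (node (node a z b) y c).keys = (node a z (node b y c)).keys := by simp [keys]
        rw [h2]
        exact MvN.step (Mv.r1 P x a z b y c) h1

theorem phase1 (l : BT) : ∀ (x : ℕ) (r : BT), ∃ n x' r', n ≤ l.keys.length ∧ MvN n (node l x r) (node nil x' r') := by
  induction l with
  | nil => intro x r; exact ⟨0, x, r, by simp, MvN.refl _⟩
  | node a y b iha _ =>
    intro x r
    obtain ⟨n, x', r', h1, h2⟩ := iha y (node b x r)
    exact ⟨n + 1, x', r', by simp only [keys, List.length_append, List.length_cons]; omega,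
      MvN.step (Mv.r0 a y b x r) h2⟩

theorem to_comb (N : BT) : ∃ n ≤ 3 * N.keys.length, MvN n N (addComb nil N.keys) := by
  cases N with
  | nil => exact ⟨0, by simp, MvN.refl _⟩
  | node l x r =>
    obtain ⟨n, x', r', h1, h2⟩ := phase1 l x r
    have h3 := phase2 (mu r') r' nil x' rfl
    have h4 := h2.keys
    have h5 := mu_le r'
    refine ⟨n + mu r', ?_, ?_⟩
    · have h6 := congrArg List.length h4
      simp only [keys, List.length_append, List.length_cons, List.length_nil] at h6 ⊢
      omega
    · rw [← h4]
      exact h2.trans h3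

theorem moves {N V : BT} (h : V.keys = N.keys) : ∃ n ≤ 6 * N.keys.length, MvN n N V := by
  obtain ⟨n, h1, h2⟩ := to_comb N
  obtain ⟨m, h3, h4⟩ := to_comb V
  rw [h] at h3 h4
  exact ⟨n + m, by omega, h2.trans h4.symm⟩

/-- executions with rotations near the root only, which access the root only -/
inductive NRun : BT → List ℕ → ℕ → Prop
  | done (t : BT) : NRun t [] 0
  | mv {t t' : BT} {σ : List ℕ} {c : ℕ} : Mv t t' → NRun t' σ c → NRun t σ (c + 1)
  | access {l r : BT} {x : ℕ} {σ : List ℕ} {c : ℕ} : NRun (node l x r) σ c → NRun (node l x r) (x :: σ) (c + 1)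

theorem MvN.nrun {n : ℕ} {t t' : BT} (h : MvN n t t') {σ : List ℕ} {c : ℕ} (h' : NRun t' σ c) :
    NRun t σ (c + n) := by
  induction h with
  | refl t => exact h'
  | step h1 _ ih => exact NRun.mv h1 (ih h')

theorem path_pattern {x lo : ℕ} {S : BT} (hD : Dis lo S) (hS : Srt S) (hx : x ∈ S.keys) :
    ∃ (f : ℕ → BT) (U : BT), S = fill f lo U ∧ x ∈ U.keys ∧ U.keys.length = depth x S + 1 := by
  induction S generalizing lo with
  | nil => simp [keys] at hx
  | node l k r ihl ihr =>
    obtain ⟨h1, h2, h3, h4⟩ := srt_node.1 hS
    obtain ⟨d1, d2, d3⟩ := dis_node hD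
    rw [mem_node] at hx
    unfold depth
    split_ifs with h5 h6
    · have hx' : x ∈ l.keys := by
        rcases hx with h | h | h
        · exact h
        · omega
        · have := h4 x h; omega
      obtain ⟨f, U, e1, e2, e3⟩ := ihl d1 h1 hx'
      refine ⟨fun m => if m = k then r else f m, node U k nil, ?_, ?_, ?_⟩
      · simp only [fill, if_true]
        rw [fill_congr (f := fun m => if m = k then r else f m) (g := f) (lo := lo) (N := U), ← e1]
        intro a ha
        have ha' : a ∈ lo :: l.keys := by
          rw [e1, keys_fill]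
          exact List.mem_flatMap.2 ⟨a, ha, List.mem_cons_self⟩
        have : a ≠ k := by
          rintro rfl
          exact d3 _ ha' (by simp)
        simp [this]
      · simp [keys, e2]
      · simp only [keys, List.length_append, List.length_cons, List.length_nil]; omega
    · have hx' : x ∈ r.keys := by
        rcases hx with h | h | h
        · have := h3 x h; omega
        · omega
        · exact h
      obtain ⟨f, U, e1, e2, e3⟩ := ihr d2 h2 hx'
      have hlo : lo ∉ k :: r.keys := d3 lo (by simp)
      refine ⟨fun m => if m = lo then l else f m, node nil k U, ?_, ?_, ?_⟩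
      · simp only [fill, if_true]
        rw [fill_congr (f := fun m => if m = lo then l else f m) (g := f) (lo := k) (N := U), ← e1]
        intro a ha
        have ha' : a ∈ k :: r.keys := by
          rw [e1, keys_fill]
          exact List.mem_flatMap.2 ⟨a, ha, List.mem_cons_self⟩
        have : a ≠ lo := by
          rintro rfl
          exact hlo ha'
        simp [this]
      · simp [keys, e2]
      · simp only [keys, List.length_append, List.length_cons, List.length_nil]; omega
    · have hxk : x = k := by omega
      have hlo : lo ≠ k := fun h => d3 lo (by simp) (by simp [h])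
      refine ⟨fun m => if m = lo then l else r, node nil k nil, ?_, ?_, ?_⟩
      · simp [fill, hlo.symm]
      · simp [keys, hxk]
      · simp [keys]

theorem sub_keys_fill {W : ℕ → BT} {lo : ℕ} {U : BT} (hD : Dis lo (fill W lo U)) {x : ℕ} (hx : x ∈ U.keys) :
    x ∈ (fill W lo U).keys := by
  have h1 : x ∈ lo :: (fill W lo U).keys := by
    rw [keys_fill]
    exact List.mem_flatMap.2 ⟨x, List.mem_cons_of_mem _ hx, List.mem_cons_self⟩
  have h2 : x ≠ lo := by
    rintro rfl
    exact (List.nodup_cons.1 hD.of_fill).1 hx
  simpa [h2] using h1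

/-- every offline execution can be simulated near the root -/
theorem near_run {S : BT} {σ : List ℕ} {c : ℕ} (h : Run S σ c) : ∀ {w : ℕ} {T : BT}, RotN w T S →
    ∀ {lo : ℕ}, Dis lo S → Srt S → (∀ x ∈ σ, x ∈ S.keys) → ∃ c' ≤ 13 * (c + w), NRun T σ c' := by
  induction h with
  | done t =>
    intro w T _ lo _ _ _
    exact ⟨0, by omega, NRun.done _⟩
  | @rot t t' σ c h1 _ ih =>
    intro w T hw lo hD hS hσ
    have hk := h1.keys
    obtain ⟨c', h2, h3⟩ := ih (hw.trans (RotN.one h1)) (lo := lo) (by unfold Dis at *; rw [hk]; exact hD)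
      (by unfold Srt at *; rw [hk]; exact hS) (fun x hx => by rw [hk]; exact hσ x hx)
    exact ⟨c', by omega, h3⟩
  | @access t x σ c _ ih =>
    intro w T hw lo hD hS hσ
    have hx := hσ x (by simp)
    obtain ⟨f, U, e1, e2, e3⟩ := path_pattern hD hS hx
    obtain ⟨k, m, hkm, N, V, g, W, hT, hV, hVN, hlen, hR⟩ := defer hw e1 hD
    obtain ⟨c', h2, h3⟩ := ih hR hD hS (fun y hy => hσ y (List.mem_cons_of_mem _ hy))
    have hDN : Dis lo N := by
      have : Dis lo T := by unfold Dis at *; rw [← hw.keys]; exact hD
      exact (hT ▸ this).of_fill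
    have hDV : Dis lo V := by unfold Dis at *; rw [hVN]; exact hDN
    have hxV : x ∈ V.keys := by
      rw [hV] at hDV ⊢
      exact sub_keys_fill hDV e2
    obtain ⟨L1, L2, hL⟩ := List.append_of_mem hxV
    set X : BT := node (addComb nil L1) x (addComb nil L2) with hX
    have hXV : X.keys = V.keys := by
      rw [hL, hX]
      simp [keys, keys_addComb]
    obtain ⟨n1, b1, m1⟩ := moves (N := N) (V := X) (by rw [hXV, hVN])
    obtain ⟨n2, b2, m2⟩ := moves (N := X) (V := V) hXV.symm
    rw [hXV, hVN] at b2
    have r1 := (m2.fill g lo).nrun h3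
    have r2 : NRun (BT.fill g lo X) (x :: σ) (c' + n2 + 1) := NRun.access r1
    have r3 := (m1.fill g lo).nrun r2
    rw [hT]
    exact ⟨_, by omega, r3⟩

end BT

end Pool.Agent.SS
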