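import Pool.Agent.Helper34.SS.Merge

/-!
# Semisplaying: simulation of restricted rotations by cheap accesses
-/

set_option autoImplicit false

namespace Pool.Agent.SS

namespace BT

/-- `k` accesses at depth at most 3, served by semisplaying -/
inductive ChN : ℕ → BT → BT → Prop
  | refl (t : BT) : ChN 0 t t
  | step {n : ℕ} {t t' : BT} (y : ℕ) : y ∈ t.keys → depth y t ≤ 3 → ChN n (splayed y t) t' → ChN (n + 1) t t'

theorem ChN.trans {n m : ℕ} {t t' t'' : BT} (h : ChN n t t') (h' : ChN m t' t'') : ChN (n + m) t t'' := by
  induction h with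
  | refl t => simpa using h'
  | @step n _ _ y h1 h2 _ ih =>
    have := ChN.step y h1 h2 (ih h')
    rwa [show n + 1 + m = n + m + 1 from by omega]

theorem ChN.keys {n : ℕ} {t t' : BT} (h : ChN n t t') : Srt t → t'.keys = t.keys := by
  induction h with
  | refl t => exact fun _ => rfl
  | step y h1 _ _ ih =>
    intro ht
    rw [ih (srt_splayed ht h1), keys_splayed ht h1]

theorem ChN.near {n : ℕ} {t t' : BT} (h : ChN n t t') : Srt t → ∀ {σ τ : List ℕ}, Near t' σ τ →
    (∀ x ∈ τ, x ∈ t'.keys) → ∃ τ', Near t σ τ' ∧ τ'.length = τ.length + n ∧ ∀ x ∈ τ', x ∈ t.keys := by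
  induction h with
  | refl t => exact fun _ σ τ h h' => ⟨τ, h, rfl, h'⟩
  | @step n t t' y h1 h2 h3 ih =>
    intro ht σ τ h hτ
    obtain ⟨τ', a1, a2, a3⟩ := ih (srt_splayed ht h1) h hτ
    refine ⟨y :: τ', Near.ins h2 a1, by rw [List.length_cons, a2]; omega, fun x hx => ?_⟩
    rcases List.mem_cons.1 hx with rfl | hx
    · exact h1
    · rw [← keys_splayed ht h1]; exact a3 x hx

theorem srt_congr {t t' : BT} (h : t'.keys = t.keys) (ht : Srt t) : Srt t' := by
  unfold Srt; rw [h]; exact ht

/-! ### the effect of cheap accesses -/

theorem s1 {A B C D : BT} {x y z : ℕ} (h : Srt (node A x (node B y (node C z D)))) :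
    splayed z (node A x (node B y (node C z D))) = node (node A x B) y (node C z D) ∧
    depth z (node A x (node B y (node C z D))) = 2 := by
  obtain ⟨-, h1, -, h2⟩ := srt_node.1 h
  obtain ⟨-, -, -, h3⟩ := srt_node.1 h1
  have a1 : x < z := h2 z (by simp [keys])
  have a2 : y < z := h3 z (by simp [keys])
  have b1 : ¬ z < x := by omega
  have b2 : ¬ z < y := by omega
  constructor
  · simp [splayed, path, semi, a1, a2, b1, b2]
  · simp [depth, a1, a2, b1, b2]

theorem s2 {A B C D : BT} {x y z : ℕ} (h : Srt (node (node (node D z C) y B) x A)) :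
    splayed z (node (node (node D z C) y B) x A) = node (node D z C) y (node B x A) ∧
    depth z (node (node (node D z C) y B) x A) = 2 := by
  obtain ⟨h1, -, h2, -⟩ := srt_node.1 h
  obtain ⟨-, -, h3, -⟩ := srt_node.1 h1
  have a1 : z < x := h2 z (by simp [keys])
  have a2 : z < y := h3 z (by simp [keys])
  constructor
  · simp [splayed, path, semi, a1, a2]
  · simp [depth, a1, a2]

theorem s3 {A B C D : BT} {x y z : ℕ} (h : Srt (node (node A y (node B z C)) x D)) :
    splayed z (node (node A y (node B z C)) x D) = node (node A y B) z (node C x D) ∧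
    depth z (node (node A y (node B z C)) x D) = 2 := by
  obtain ⟨h1, -, h2, -⟩ := srt_node.1 h
  obtain ⟨-, -, -, h3⟩ := srt_node.1 h1
  have a1 : z < x := h2 z (by simp [keys])
  have a2 : y < z := h3 z (by simp [keys])
  have b2 : ¬ z < y := by omega
  constructor
  · simp [splayed, path, semi, a1, a2, b2]
  · simp [depth, a1, a2, b2]

theorem s3' {A B C D : BT} {x y z : ℕ} (h : Srt (node D x (node (node B z C) y A))) :
    splayed z (node D x (node (node B z C) y A)) = node (node D x B) z (node C y A) ∧
    depth z (node D x (node (node B z C) y A)) = 2 := by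
  obtain ⟨-, h1, -, h2⟩ := srt_node.1 h
  obtain ⟨-, -, h3, -⟩ := srt_node.1 h1
  have a1 : x < z := h2 z (by simp [keys])
  have a2 : z < y := h3 z (by simp [keys])
  have b1 : ¬ z < x := by omega
  constructor
  · simp [splayed, path, semi, a1, a2, b1]
  · simp [depth, a1, a2, b1]

theorem s4 {A B C D E : BT} {x y z w : ℕ} (h : Srt (node (node (node (node D z C) y B) x A) w E)) :
    splayed z (node (node (node (node D z C) y B) x A) w E) = node (node (node D z C) y (node B x A)) w E ∧
    depth z (node (node (node (node D z C) y B) x A) w E) = 3 := by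
  obtain ⟨h0, -, h1, -⟩ := srt_node.1 h
  obtain ⟨h2, -, h3, -⟩ := srt_node.1 h0
  obtain ⟨-, -, h4, -⟩ := srt_node.1 h2
  have a1 : z < w := h1 z (by simp [keys])
  have a2 : z < x := h3 z (by simp [keys])
  have a3 : z < y := h4 z (by simp [keys])
  constructor
  · simp [splayed, path, semi, a1, a2, a3]
  · simp [depth, a1, a2, a3]

/-! ### trees whose extreme keys are leaves -/

def capL (a : ℕ) : BT → BT
  | nil => node nil a nil
  | node l k r => node (capL a l) k r

def capR (b : ℕ) : BT → BT
  | nil => node nil b nil
  | node l k r => node l k (capR b r)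

theorem capL_ne (a : ℕ) (t : BT) : ∃ p z q, capL a t = node p z q := by
  cases t with
  | nil => exact ⟨_, _, _, rfl⟩
  | node l k r => exact ⟨_, _, _, rfl⟩

theorem capR_ne (b : ℕ) (t : BT) : ∃ p z q, capR b t = node p z q := by
  cases t with
  | nil => exact ⟨_, _, _, rfl⟩
  | node l k r => exact ⟨_, _, _, rfl⟩

def cap (a b : ℕ) (t : BT) : BT := capL a (capR b t)

theorem keys_capL (a : ℕ) (t : BT) : (capL a t).keys = a :: t.keys := by
  induction t with
  | nil => rfl
  | node l k r ihl _ => simp [capL, keys, ihl]

theorem keys_capR (b : ℕ) (t : BT) : (capR b t).keys = t.keys ++ [b] := by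
  induction t with
  | nil => rfl
  | node l k r _ ihr => simp [capR, keys, ihr]

theorem keys_cap (a b : ℕ) (t : BT) : (cap a b t).keys = a :: (t.keys ++ [b]) := by
  rw [cap, keys_capL, keys_capR]

theorem cap_node (a b : ℕ) (l : BT) (k : ℕ) (r : BT) : cap a b (node l k r) = node (capL a l) k (capR b r) := rfl

theorem one_step {t t' : BT} {z : ℕ} (hz : z ∈ t.keys) (h : splayed z t = t' ∧ depth z t = 2) : ChN 1 t t' :=
  ChN.step z hz (by omega) (h.1 ▸ ChN.refl _)

theorem one_step3 {t t' : BT} {z : ℕ} (hz : z ∈ t.keys) (h : splayed z t = t' ∧ depth z t = 3) : ChN 1 t t' :=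
  ChN.step z hz (by omega) (h.1 ▸ ChN.refl _)

theorem sim_mv {I J : BT} (h : Mv I J) {a b : ℕ} (hS : Srt (cap a b I)) : ∃ k ≤ 4, ChN k (cap a b I) (cap a b J) := by
  have hk : (cap a b J).keys = (cap a b I).keys := by rw [keys_cap, keys_cap, h.rot.keys]
  cases h with
  | r0 A x B y C =>
    change Srt (node (node (capL a A) x B) y (capR b C)) at hS
    change ∃ k ≤ 4, ChN k (node (node (capL a A) x B) y (capR b C)) (node (capL a A) x (node B y (capR b C)))
    obtain ⟨p, z, q, e⟩ := capL_ne a A
    rw [e] at hS ⊢
    exact ⟨1, by omega, one_step (by simp [keys]) (s2 hS)⟩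
  | l0 A x B y C =>
    change Srt (node (capL a A) x (node B y (capR b C))) at hS
    change ∃ k ≤ 4, ChN k (node (capL a A) x (node B y (capR b C))) (node (node (capL a A) x B) y (capR b C))
    obtain ⟨p, z, q, e⟩ := capR_ne b C
    rw [e] at hS ⊢
    exact ⟨1, by omega, one_step (by simp [keys]) (s1 hS)⟩
  | r1 t w A x B y C =>
    change Srt (node (capL a t) w (node (node A x B) y (capR b C))) at hS
    change ∃ k ≤ 4, ChN k (node (capL a t) w (node (node A x B) y (capR b C)))
      (node (capL a t) w (node A x (node B y (capR b C))))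
    obtain ⟨p, z, q, e⟩ := capL_ne a t
    obtain ⟨p', z', q', e'⟩ := capR_ne b C
    rw [e, e'] at hS ⊢
    have c1 := one_step (by simp [keys]) (s1 hS)
    have S1 := srt_congr (c1.keys hS) hS
    have c2 := one_step (by simp [keys]) (s3 S1)
    have S2 := srt_congr (c2.keys S1) S1
    have c3 := one_step (by simp [keys]) (s2 S2)
    exact ⟨3, by omega, (c1.trans c2).trans c3⟩
  | l1 t w A x B y C =>
    change Srt (node (capL a t) w (node A x (node B y (capR b C)))) at hS
    change ∃ k ≤ 4, ChN k (node (capL a t) w (node A x (node B y (capR b C))))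
      (node (capL a t) w (node (node A x B) y (capR b C)))
    obtain ⟨p, z, q, e⟩ := capL_ne a t
    obtain ⟨p', z', q', e'⟩ := capR_ne b C
    rw [e, e'] at hS ⊢
    have c1 := one_step (by simp [keys]) (s1 hS)
    have S1 := srt_congr (c1.keys hS) hS
    have c2 := one_step (by simp [keys]) (s1 S1)
    have S2 := srt_congr (c2.keys S1) S1
    have c3 := one_step3 (by simp [keys]) (s4 S2)
    have S3 := srt_congr (c3.keys S2) S2
    have c4 := one_step (by simp [keys]) (s2 S3)
    exact ⟨4, by omega, ((c1.trans c2).trans c3).trans c4⟩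

/-- accessing the root or the leaf next to it changes nothing -/
theorem splayed_shallow {x : ℕ} {t : BT} (h : depth x t ≤ 1) : splayed x t = t := by
  have h1 := length_path x t []
  have h2 := plug_path x t []
  unfold splayed
  generalize (path x t []).2 = s at h2 ⊢
  generalize (path x t []).1 = p at h1 h2 ⊢
  simp only [List.length_nil] at h1
  match p, h1, h2 with
  | [], _, h2 => exact h2
  | [⟨true, k, o⟩], _, h2 => exact h2
  | [⟨false, k, o⟩], _, h2 => exact h2
  | _ :: _ :: p, h1, _ => simp only [List.length_cons] at h1; omega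

/-- a run near the root is simulated by semisplaying with cheap insertions -/
theorem sim_nrun {n : ℕ} {I : BT} {σ' : List ℕ} {c : ℕ} (h : NRun I σ' c) : ∀ {σ : List ℕ},
    σ' = σ.map (fun x => ren (n + 1) (n + 1) (ren 1 2 x)) → (∀ x ∈ σ, 1 ≤ x ∧ x ≤ n + 2) →
    (cap 1 (n + 2) I).keys = List.range' 1 (n + 2) →
    ∃ τ, Near (cap 1 (n + 2) I) σ τ ∧ τ.length ≤ 4 * c ∧ ∀ x ∈ τ, x ∈ (cap 1 (n + 2) I).keys := by
  induction h with
  | done t =>
    intro σ h _ _
    have : σ = [] := by simpa using h.symm
    subst this
    exact ⟨[], Near.done _, by simp, by simp⟩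
  | @mv t t' σ' c h1 _ ih =>
    intro σ hσ hr hk
    have hk' : (cap 1 (n + 2) t').keys = (cap 1 (n + 2) t).keys := by rw [keys_cap, keys_cap, h1.rot.keys]
    have hS : Srt (cap 1 (n + 2) t) := by unfold Srt; rw [hk]; exact List.pairwise_lt_range'
    obtain ⟨τ, a1, a2, a3⟩ := ih hσ hr (by rw [hk']; exact hk)
    obtain ⟨k, hk4, hc⟩ := sim_mv h1 hS
    obtain ⟨τ', b1, b2, b3⟩ := hc.near hS a1 a3
    exact ⟨τ', b1, by omega, b3⟩
  | @access l r x σ' c _ ih =>
    intro σ hσ hr hk
    cases σ with
    | nil => simp at hσ
    | cons s σ =>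
      simp only [List.map_cons, List.cons.injEq] at hσ
      obtain ⟨hx, hσ⟩ := hσ
      obtain ⟨τ, a1, a2, a3⟩ := ih hσ (fun y hy => hr y (List.mem_cons_of_mem _ hy)) hk
      have hs := hr s (by simp)
      have hS : Srt (cap 1 (n + 2) (node l x r)) := by unfold Srt; rw [hk]; exact List.pairwise_lt_range'
      have hd : depth s (cap 1 (n + 2) (node l x r)) ≤ 1 := by
        rw [cap_node] at hS hk ⊢
        obtain ⟨g1, g2, g3, g4⟩ := srt_node.1 hS
        have hmem : ∀ y, y ∈ (node (capL 1 l) x (capR (n + 2) r)).keys ↔ 1 ≤ y ∧ y ≤ n + 2 := by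
          intro y
          rw [hk, List.mem_range'_1]
          omega
        by_cases h1 : s = x
        · subst h1
          rw [depth, if_neg (lt_irrefl s), if_neg (lt_irrefl s)]
          omega
        · have h2 : (s = 1 ∧ x = 2) ∨ (s = n + 2 ∧ x = n + 1) := by
            unfold ren at hx
            split_ifs at hx <;> omega
          rcases h2 with ⟨rfl, rfl⟩ | ⟨rfl, rfl⟩
          · have hl : l = nil := by
              cases l with
              | nil => rfl
              | node p z q =>
                exfalso
                have e1 := (srt_node.1 g1)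
                have e2 := g3 z (by rw [keys_capL]; simp [keys])
                have e3 : 1 < z := by
                  have := g1
                  unfold Srt at this
                  rw [keys_capL] at this
                  exact (List.pairwise_cons.1 this).1 z (by simp [keys])
                omega
            subst hl
            simp [capL, depth]
          · have hl : r = nil := by
              cases r with
              | nil => rfl
              | node p z q =>
                exfalso
                have e2 := g4 z (by rw [keys_capR]; simp [keys])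
                have e3 : z < n + 2 := by
                  have := g2
                  unfold Srt at this
                  rw [keys_capR] at this
                  exact (List.pairwise_append.1 this).2.2 z (by simp [keys]) (n + 2) (by simp)
                omega
            subst hl
            simp [capR, depth]
      have hmem : s ∈ (cap 1 (n + 2) (node l x r)).keys := by
        rw [hk, List.mem_range'_1]; omega
      refine ⟨s :: τ, Near.keep hd ?_, by rw [List.length_cons]; omega, ?_⟩
      · rw [splayed_shallow hd]; exact a1
      · intro y hy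
        rcases List.mem_cons.1 hy with rfl | hy
        · exact hmem
        · exact a3 y hy

/-! ### initial phase -/

theorem init1 (l : BT) : ∀ (x : ℕ) (r : BT), l ≠ nil → Srt (node l x r) → ∃ k ≤ l.keys.length, ∃ m B y C,
    ChN k (node l x r) (node (node nil m B) y C) := by
  induction l with
  | nil => exact fun x r h => absurd rfl h
  | node A y B ihA _ =>
    intro x r _ hS
    cases A with
    | nil => exact ⟨0, by omega, y, B, x, r, ChN.refl _⟩
    | node p z q =>
      have c1 := one_step (by simp [keys]) (s2 hS)
      have S1 := srt_congr (c1.keys hS) hS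
      obtain ⟨k, hk, m, B', y', C', h⟩ := ihA y (node B x r) (by simp) S1
      refine ⟨1 + k, ?_, m, B', y', C', c1.trans h⟩
      simp only [keys, List.length_append, List.length_cons] at hk ⊢
      omega

theorem init2 (B : BT) : ∀ (m y : ℕ) (C : BT), Srt (node (node nil m B) y C) → ∃ k ≤ B.keys.length, ∃ y' C',
    ChN k (node (node nil m B) y C) (node (node nil m nil) y' C') := by
  induction B with
  | nil => exact fun m y C _ => ⟨0, by omega, y, C, ChN.refl _⟩
  | node p z q ihp _ =>
    intro m y C hS
    have c1 := one_step (by simp [keys]) (s3 hS)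
    have S1 := srt_congr (c1.keys hS) hS
    obtain ⟨k, hk, y', C', h⟩ := ihp m z (node q y C) S1
    refine ⟨1 + k, ?_, y', C', c1.trans h⟩
    simp only [keys, List.length_append, List.length_cons] at hk ⊢
    omega

theorem init3 (c : BT) : ∀ (b : BT) (z : ℕ) (L : BT) (y a : ℕ), Srt (node (capL a L) y (node b z c)) →
    ∃ k ≤ c.keys.length, ∃ L' y' B m, ChN k (node (capL a L) y (node b z c)) (node (capL a L') y' (node B m nil)) := by
  induction c with
  | nil => exact fun b z L y a _ => ⟨0, by omega, L, y, b, z, ChN.refl _⟩
  | node p w q _ ihq =>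
    intro b z L y a hS
    have c1 := one_step (by simp [keys]) (s1 hS)
    have S1 := srt_congr (c1.keys hS) hS
    obtain ⟨k, hk, L', y', B, m, h⟩ := ihq p w (node L y b) z a S1
    refine ⟨1 + k, ?_, L', y', B, m, c1.trans h⟩
    simp only [keys, List.length_append, List.length_cons] at hk ⊢
    omega

theorem init4 (B : BT) : ∀ (m : ℕ) (L : BT) (y a : ℕ), Srt (node (capL a L) y (node B m nil)) →
    ∃ k ≤ B.keys.length, ∃ L' y', ChN k (node (capL a L) y (node B m nil)) (node (capL a L') y' (node nil m nil)) := by
  induction B with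
  | nil => exact fun m L y a _ => ⟨0, by omega, L, y, ChN.refl _⟩
  | node p z q _ ihq =>
    intro m L y a hS
    have c1 := one_step (by simp [keys]) (s3' hS)
    have S1 := srt_congr (c1.keys hS) hS
    obtain ⟨k, hk, L', y', h⟩ := ihq m (node L y p) z a S1
    refine ⟨1 + k, ?_, L', y', c1.trans h⟩
    simp only [keys, List.length_append, List.length_cons] at hk ⊢
    omega

theorem init {n : ℕ} {T : BT} (hT : T.keys = List.range' 1 (n + 2)) (hn : 1 ≤ n) :
    ∃ k ≤ 4 * (n + 2), ∃ I, I ≠ nil ∧ ChN k T (cap 1 (n + 2) I) := by
  have hS : Srt T := by unfold Srt; rw [hT]; exact List.pairwise_lt_range'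
  have hlen : T.keys.length = n + 2 := by rw [hT]; simp
  -- phase 1
  have p1 : ∃ k ≤ n + 2, ∃ m B y C, ChN k T (node (node nil m B) y C) := by
    cases T with
    | nil => simp [keys] at hlen
    | node l x r =>
      by_cases hl : l = nil
      · subst hl
        cases r with
        | nil => simp [keys] at hlen
        | node b y c =>
          cases c with
          | node p z q => exact ⟨1, by omega, x, b, y, _, one_step (by simp [keys]) (s1 hS)⟩
          | nil =>
            cases b with
            | nil => simp [keys] at hlen; omega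
            | node p z q => exact ⟨1, by omega, x, p, z, _, one_step (by simp [keys]) (s3' hS)⟩
      · obtain ⟨k, hk, m, B, y, C, h⟩ := init1 l x r hl hS
        refine ⟨k, ?_, m, B, y, C, h⟩
        simp only [keys, List.length_append, List.length_cons] at hlen
        omega
  obtain ⟨k1, hk1, m, B, y, C, c1⟩ := p1
  have K1 := c1.keys hS
  have S1 := srt_congr K1 hS
  obtain ⟨k2, hk2, y2, C2, c2⟩ := init2 B m y C S1
  have K2 := c2.keys S1
  have S2 := srt_congr K2 S1
  have hm : m = 1 := by
    have := K1
    rw [hT] at this
    simp only [keys, List.nil_append, List.range'_succ] at this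
    simp at this
    exact this.1
  subst hm
  have l1 : B.keys.length ≤ n + 2 := by
    have := congrArg List.length K1
    rw [hlen] at this
    simp only [keys, List.length_append, List.length_cons] at this
    omega
  cases C2 with
  | nil =>
    exfalso
    have := congrArg List.length (K2.trans K1)
    rw [hlen] at this
    simp [keys] at this
    omega
  | node b z c =>
    obtain ⟨k3, hk3, L3, y3, B3, m3, c3⟩ := init3 c b z nil y2 1 S2
    have K3 := c3.keys S2
    have S3 := srt_congr K3 S2
    obtain ⟨k4, hk4, L4, y4, c4⟩ := init4 B3 m3 L3 y3 1 S3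
    have K4 := c4.keys S3
    have hm3 : m3 = n + 2 := by
      have := ((K4.trans K3).trans K2).trans K1
      rw [hT] at this
      have h1 := congrArg List.getLast? this
      simp [keys, List.getLast?_range'] at h1
      omega
    subst hm3
    have l2 : c.keys.length ≤ n + 2 := by
      have := congrArg List.length (K2.trans K1)
      rw [hlen] at this
      simp only [keys, List.length_append, List.length_cons] at this
      omega
    have l3 : B3.keys.length ≤ n + 2 := by
      have := congrArg List.length ((K3.trans K2).trans K1)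
      rw [hlen] at this
      simp only [keys, List.length_append, List.length_cons] at this
      omega
    exact ⟨k1 + k2 + k3 + k4, by omega, node L4 y4 nil, by simp, ((c1.trans c2).trans c3).trans c4⟩

end BT

end Pool.Agent.SS
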